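import Pool.Agent.H703R2.AB.Cplx

/-!
# Helper lemmas for the final statements
-/

set_option autoImplicit false
set_option linter.unusedSectionVars false

namespace Pool.Agent.H703R2.AB

open Finset Matrix Pool.Agent.H722R2.AA Pool.Agent.H746R2.AA Pool.Agent.H703R2.AA

lemma gext {W : Type*} (T : ℕ) (g : (Fin T → W) → ℝ) (hg0 : ∀ a, 0 ≤ g a) (hg1 : ∀ a, g a ≤ 1) :
    ∃ g' : List W → ℝ, (∀ l, 0 ≤ g' l) ∧ (∀ l, g' l ≤ 1) ∧ ∀ a : Fin T → W, g' (List.ofFn a) = g a := by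
  classical
  refine ⟨fun l => if h : l.length = T then g (fun i => l.get (i.cast h.symm)) else 0, ?_, ?_, ?_⟩
  · intro l
    beta_reduce
    split_ifs
    · exact hg0 _
    · exact le_rfl
  · intro l
    beta_reduce
    split_ifs
    · exact hg1 _
    · exact zero_le_one
  · intro a
    simp only [List.length_ofFn, dite_true]
    congr 1
    funext i
    simp

lemma T_pos {κ ι W : Type*} [Fintype κ] [DecidableEq κ] [Fintype ι] [DecidableEq ι] [Fintype W]
    (P : Pr κ ι W) (T : ℕ) (g : List W → ℝ) (h : 0 < Cov (P.out T g) (P.out T g)) : 1 ≤ T := by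
  rcases Nat.eq_zero_or_pos T with h0 | h0
  · exfalso
    subst h0
    have hc : P.out 0 g = fun _ => g [] * nsq P.v := rfl
    rw [hc] at h
    unfold Cov at h
    rw [Ex_const, Ex_const, sub_self] at h
    exact lt_irrefl _ h
  · exact h0

section

variable {μ : Type*} [Fintype μ] [DecidableEq μ]
variable {κ B W : Type*} [Fintype κ] [DecidableEq κ] [Fintype B] [DecidableEq B] [Fintype W]
variable (pos : List W → B → Option κ) (V : List W → Matrix B μ ℂ) (K : List W → W → Matrix μ B ℂ)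

/-- The total excess of the real process. -/
lemma Exc_mkPr (hV : ∀ h, (V h)ᴴ * V h = 1) (hK : ∀ h, ∑ w, (K h w)ᴴ * K h w = 1)
    (v : μ → ℂ) (hv : ∑ i, ‖v i‖ ^ 2 = 1) (A : List W → (κ → ℤˣ) → μ → ℂ)
    (hA : ∀ h x, (mkPr pos V K hV hK v hv).A h x = rv (A h x)) (ν : List W → κ → ℝ) (T : ℕ) :
    Exc (mkPr pos V K hV hK v hv) ν T
      = ∑ t ∈ Finset.range T, ∑ a : Fin t → W, Ex (fun x => ∑ k,
        max ((∑ b with pos (List.ofFn a) b = some k, ‖(V (List.ofFn a) *ᵥ A (List.ofFn a) x) b‖ ^ 2)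
          - ν (List.ofFn a) k * ∑ i, ‖A (List.ofFn a) x i‖ ^ 2) 0) := by
  unfold Exc Et
  refine Finset.sum_congr rfl fun t _ => ?_
  rw [S_eq_ofFn]
  refine Finset.sum_congr rfl fun a _ => ?_
  refine Ex_congr fun x => Finset.sum_congr rfl fun k _ => ?_
  unfold ek
  rw [qk_mkPr pos V K hV hK v hv A (List.ofFn a) x (hA _ x) k, hA, nsq_rv]

/-- With the bounded memory domination there is no excess. -/
lemma Exc_nuV (hV : ∀ h, (V h)ᴴ * V h = 1) (hK : ∀ h, ∑ w, (K h w)ᴴ * K h w = 1)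
    (v : μ → ℂ) (hv : ∑ i, ‖v i‖ ^ 2 = 1) (A : List W → (κ → ℤˣ) → μ → ℂ)
    (hA : ∀ h x, (mkPr pos V K hV hK v hv).A h x = rv (A h x)) (T : ℕ) :
    Exc (mkPr pos V K hV hK v hv) (nuV pos V) T = 0 := by
  rw [Exc_mkPr pos V K hV hK v hv A hA]
  refine Finset.sum_eq_zero fun t _ => Finset.sum_eq_zero fun a _ => ?_
  have : ∀ x : κ → ℤˣ, ∑ k, max ((∑ b with pos (List.ofFn a) b = some k,
        ‖(V (List.ofFn a) *ᵥ A (List.ofFn a) x) b‖ ^ 2)
          - nuV pos V (List.ofFn a) k * ∑ i, ‖A (List.ofFn a) x i‖ ^ 2) 0 = 0 := by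
    intro x
    refine Finset.sum_eq_zero fun k _ => ?_
    rw [max_eq_right]
    have := q_le_nuV pos V (List.ofFn a) k (A (List.ofFn a) x)
    linarith
  rw [Ex_congr this, Ex_const]

end

end Pool.Agent.H703R2.AB
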