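import Pool.Agent.H703R2.AB.Osss
import Pool.Agent.H703R2.AA.Cplx

/-!
# Dominated quantum algorithms as dominated real processes
-/

set_option autoImplicit false
set_option linter.unusedSectionVars false

namespace Pool.Agent.H703R2.AB

open Finset Matrix Pool.Agent.H722R2.AA Pool.Agent.H746R2.AA Pool.Agent.H703R2.AA

variable {μ : Type*} [Fintype μ] [DecidableEq μ]
variable {κ B W : Type*} [Fintype κ] [DecidableEq κ] [Fintype B] [DecidableEq B] [Fintype W]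

lemma sum_norm_sq_eq (u : μ → ℂ) : ((∑ i, ‖u i‖ ^ 2 : ℝ) : ℂ) = star u ⬝ᵥ u := by
  simp only [dotProduct, Pi.star_apply]
  push_cast
  refine Finset.sum_congr rfl fun i _ => ?_
  rw [Complex.star_def, ← Complex.normSq_eq_conj_mul_self, ← Complex.ofReal_pow,
    Complex.normSq_eq_norm_sq]

lemma sum_norm_K (K : W → Matrix μ B ℂ) (hK : ∑ w, (K w)ᴴ * K w = 1) (y : B → ℂ) :
    ∑ w, ∑ i, ‖(K w *ᵥ y) i‖ ^ 2 = ∑ b, ‖y b‖ ^ 2 := by
  have h : ((∑ w, ∑ i, ‖(K w *ᵥ y) i‖ ^ 2 : ℝ) : ℂ) = ((∑ b, ‖y b‖ ^ 2 : ℝ) : ℂ) := by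
    rw [Complex.ofReal_sum]
    simp_rw [sum_norm_sq_eq]
    have e : ∀ w, star (K w *ᵥ y) ⬝ᵥ (K w *ᵥ y) = star y ⬝ᵥ (((K w)ᴴ * K w) *ᵥ y) := by
      intro w
      rw [Matrix.star_mulVec, ← Matrix.mulVec_mulVec, Matrix.dotProduct_mulVec (star y)]
    simp_rw [e]
    rw [← dotProduct_sum, ← Matrix.sum_mulVec, hK, Matrix.one_mulVec]
  exact_mod_cast h

section Build

variable (pos : List W → B → Option κ) (V : List W → Matrix B μ ℂ) (K : List W → W → Matrix μ B ℂ)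

lemma qk_mkPr (hV : ∀ h, (V h)ᴴ * V h = 1) (hK : ∀ h, ∑ w, (K h w)ᴴ * K h w = 1)
    (v : μ → ℂ) (hv : ∑ i, ‖v i‖ ^ 2 = 1) (A : List W → (κ → ℤˣ) → μ → ℂ)
    (h : List W) (x : κ → ℤˣ) (hA : (mkPr pos V K hV hK v hv).A h x = rv (A h x)) (k : κ) :
    qk (mkPr pos V K hV hK v hv) h k x
      = ∑ b with pos h b = some k, ‖(V h *ᵥ A h x) b‖ ^ 2 := by
  unfold qk
  rw [hA]
  have e1 : ∀ w, nsq (mv ((mkPr pos V K hV hK v hv).a h w (some k)) (rv (A h x)))
      = ∑ i, ‖(K h w *ᵥ (prj (pos h) (some k) *ᵥ (V h *ᵥ A h x))) i‖ ^ 2 := by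
    intro w
    change nsq (mv (rm (Ca pos V K h w (some k))) (rv (A h x))) = _
    rw [mv_rm, nsq_rv]
    unfold Ca
    rw [← Matrix.mulVec_mulVec, ← Matrix.mulVec_mulVec]
  simp_rw [e1]
  rw [sum_norm_K (fun w => K h w) (hK h), Finset.sum_filter]
  refine Finset.sum_congr rfl fun b _ => ?_
  unfold prj
  rw [Matrix.mulVec_diagonal]
  split_ifs with hb
  · rw [one_mul]
  · rw [zero_mul, norm_zero]; norm_num

/-- The weight of a position for a bounded memory. -/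
noncomputable def nuV (h : List W) (k : κ) : ℝ := ∑ b with pos h b = some k, ∑ j, ‖V h b j‖ ^ 2

lemma nuV_nonneg (h : List W) (k : κ) : 0 ≤ nuV pos V h k :=
  Finset.sum_nonneg fun _ _ => Finset.sum_nonneg fun _ _ => sq_nonneg _

lemma sum_nuV (hV : ∀ h, (V h)ᴴ * V h = 1) (h : List W) : ∑ k, nuV pos V h k ≤ Fintype.card μ := by
  have h1 : ∑ b, ∑ j, ‖V h b j‖ ^ 2 = Fintype.card μ := by
    rw [Finset.sum_comm]
    have : ∀ j, ∑ b, ‖V h b j‖ ^ 2 = 1 := by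
      intro j
      have h2 : ((V h)ᴴ * V h) j j = 1 := by rw [hV h, Matrix.one_apply_eq]
      rw [Matrix.mul_apply] at h2
      have h3 : ((∑ b, ‖V h b j‖ ^ 2 : ℝ) : ℂ) = 1 := by
        rw [sum_norm_sq_eq (fun b => V h b j), ← h2]
        simp only [dotProduct, Pi.star_apply, Matrix.conjTranspose_apply]
      exact_mod_cast h3
    simp_rw [this]
    simp
  rw [← h1]
  unfold nuV
  simp_rw [Finset.sum_filter]
  rw [Finset.sum_comm]
  refine Finset.sum_le_sum fun b _ => ?_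
  have h0 : 0 ≤ ∑ j, ‖V h b j‖ ^ 2 := Finset.sum_nonneg fun _ _ => sq_nonneg _
  cases hb : pos h b with
  | none => simpa using h0
  | some k0 =>
    rw [Finset.sum_eq_single k0]
    · simp
    · intro k _ hk
      rw [if_neg]
      intro h2
      exact hk (Option.some.inj h2).symm
    · intro hk
      exact absurd (Finset.mem_univ _) hk

lemma q_le_nuV (h : List W) (k : κ) (u : μ → ℂ) :
    ∑ b with pos h b = some k, ‖(V h *ᵥ u) b‖ ^ 2 ≤ nuV pos V h k * ∑ i, ‖u i‖ ^ 2 := by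
  unfold nuV
  rw [Finset.sum_mul]
  refine Finset.sum_le_sum fun b _ => ?_
  simp only [Matrix.mulVec, dotProduct]
  calc ‖∑ j, V h b j * u j‖ ^ 2 ≤ (∑ j, ‖V h b j‖ * ‖u j‖) ^ 2 := by
        refine pow_le_pow_left₀ (norm_nonneg _) ?_ 2
        refine (norm_sum_le _ _).trans (le_of_eq ?_)
        exact Finset.sum_congr rfl fun j _ => norm_mul _ _
    _ ≤ _ := Finset.sum_mul_sq_le_sq_mul_sq _ _ _

end Build

end Pool.Agent.H703R2.AB
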