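import Pool.Agent.H703R2.AA.Light

/-!
# Processes whose query distributions are dominated: the light lemma
-/

set_option autoImplicit false
set_option linter.unusedSectionVars false

namespace Pool.Agent.H703R2.AB

open Finset Pool.Agent.H722R2.AA Pool.Agent.H746R2.AA Pool.Agent.H703R2.AA Pool.Agent.H703R2.AA.Pr

section Good

variable {κ W : Type*} [Fintype κ] [Fintype W]

/-- Good pair of histories. -/
def gp (ν : List W → κ → ℝ) (ε : ℝ) (h h' : List W) : Prop := ∑ k, ν h k * ν h' k ≤ ε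

/-- All prefixes of the second history are good for the given history. -/
def gd1 (ν : List W → κ → ℝ) (ε : ℝ) (h : List W) : List W → Prop
  | [] => True
  | _ :: h' => gp ν ε h h' ∧ gd1 ν ε h h'

/-- Good pairs of transcripts. -/
def gd (ν : List W → κ → ℝ) (ε : ℝ) : List W → List W → Prop
  | [], _ => True
  | _ :: h, b => gd1 ν ε h b ∧ gd ν ε h b

lemma gd_right (ν : List W → κ → ℝ) (ε : ℝ) (a : List W) (w' : W) (b : List W)
    (h : gd ν ε a (w' :: b)) : gd ν ε a b := by
  induction a with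
  | nil => trivial
  | cons w a ih => exact ⟨h.1.2, ih h.2⟩

lemma not_gd1_le (ν : List W → κ → ℝ) (ε : ℝ) (h : List W) (b : List W) :
    ind (¬ gd1 ν ε h b) ≤ acc (fun h' _ => ind (¬ gp ν ε h h')) b := by
  induction b with
  | nil => simp [gd1, acc, ind]
  | cons w' b ih =>
    simp only [gd1, acc]
    by_cases hq : gp ν ε h b
    · have : ind (¬ (gp ν ε h b ∧ gd1 ν ε h b)) ≤ ind (¬ gd1 ν ε h b) :=
        ind_mono fun h1 h2 => h1 ⟨hq, h2⟩
      have h0 := ind_nonneg (¬ gp ν ε h b)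
      linarith
    · have h1 : ind (¬ gp ν ε h b) = 1 := by unfold ind; rw [if_pos hq]
      have h2 := ind_le_one (¬ (gp ν ε h b ∧ gd1 ν ε h b))
      have h3 : 0 ≤ acc (fun h' (_ : W) => ind (¬ gp ν ε h h')) b :=
        (ind_nonneg _).trans ih
      linarith

lemma not_gd_le (ν : List W → κ → ℝ) (ε : ℝ) (a b : List W) :
    ind (¬ gd ν ε a b) ≤ acc (fun h _ => acc (fun h' _ => ind (¬ gp ν ε h h')) b) a := by
  induction a with
  | nil => simp [gd, acc, ind]
  | cons w a ih =>
    simp only [gd, acc]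
    have h1 := not_gd1_le ν ε a b
    have h2 : ind (¬ (gd1 ν ε a b ∧ gd ν ε a b)) ≤ ind (¬ gd1 ν ε a b) + ind (¬ gd ν ε a b) := by
      by_cases hq : gd1 ν ε a b
      · have : ind (¬ (gd1 ν ε a b ∧ gd ν ε a b)) ≤ ind (¬ gd ν ε a b) :=
          ind_mono fun h1 h2 => h1 ⟨hq, h2⟩
        have h0 := ind_nonneg (¬ gd1 ν ε a b)
        linarith
      · have h1 : ind (¬ gd1 ν ε a b) = 1 := by unfold ind; rw [if_pos hq]
        have h2 := ind_le_one (¬ (gd1 ν ε a b ∧ gd ν ε a b))
        have h3 := ind_nonneg (¬ gd ν ε a b)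
        linarith
    linarith

end Good

variable {κ ι W : Type*} [Fintype κ] [DecidableEq κ] [Fintype ι] [DecidableEq ι] [Fintype W]
variable (P : Pr κ ι W)

/-- The weight of position `k` after the history `h`. -/
def qk (h : List W) (k : κ) (x : κ → ℤˣ) : ℝ := ∑ w, nsq (mv (P.a h w (some k)) (P.A h x))

lemma qk_nonneg (h : List W) (k : κ) (x : κ → ℤˣ) : 0 ≤ qk P h k x :=
  Finset.sum_nonneg fun _ _ => nsq_nonneg _

lemma dot_mv_mv (m m' : ι → ι → ℝ) (u u' : ι → ℝ) :
    dot (mv m u) (mv m' u') = ∑ j, ∑ j', u j * u' j' * ∑ i, m i j * m' i j' := by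
  unfold dot mv
  have : ∀ i, (∑ j, m i j * u j) * (∑ j, m' i j * u' j)
      = ∑ j, ∑ j', u j * u' j' * (m i j * m' i j') := by
    intro i
    rw [Finset.sum_mul_sum]
    refine Finset.sum_congr rfl fun j _ => Finset.sum_congr rfl fun j' _ => by ring
  simp_rw [this]
  rw [Finset.sum_comm]
  refine Finset.sum_congr rfl fun j _ => ?_
  rw [Finset.sum_comm]
  refine Finset.sum_congr rfl fun j' _ => ?_
  rw [Finset.mul_sum]

lemma sum_dot_orth (h : List W) (k l : Option κ) (hkl : k ≠ l) (u u' : ι → ℝ) :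
    ∑ w, dot (mv (P.a h w k) u) (mv (P.a h w l) u') = 0 := by
  simp_rw [dot_mv_mv]
  rw [Finset.sum_comm]
  refine Finset.sum_eq_zero fun j _ => ?_
  rw [Finset.sum_comm]
  refine Finset.sum_eq_zero fun j' _ => ?_
  rw [← Finset.mul_sum, P.orth h k l hkl, mul_zero]

lemma sum_nsq_tot (h : List W) (u : ι → ℝ) :
    ∑ k, ∑ w, nsq (mv (P.a h w k) u) = nsq u := by
  have e : ∀ k w, nsq (mv (P.a h w k) u)
      = ∑ j, ∑ j', u j * u j' * ∑ i, P.a h w k i j * P.a h w k i j' := by
    intro k w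
    rw [← dot_self, dot_mv_mv]
  simp_rw [e]
  calc ∑ k, ∑ w, ∑ j, ∑ j', u j * u j' * ∑ i, P.a h w k i j * P.a h w k i j'
      = ∑ k, ∑ j, ∑ w, ∑ j', u j * u j' * ∑ i, P.a h w k i j * P.a h w k i j' := by
        refine Finset.sum_congr rfl fun k _ => ?_
        rw [Finset.sum_comm]
    _ = ∑ j, ∑ k, ∑ w, ∑ j', u j * u j' * ∑ i, P.a h w k i j * P.a h w k i j' := by
        rw [Finset.sum_comm]
    _ = ∑ j, ∑ k, ∑ j', ∑ w, u j * u j' * ∑ i, P.a h w k i j * P.a h w k i j' := by
        refine Finset.sum_congr rfl fun j _ => Finset.sum_congr rfl fun k _ => ?_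
        rw [Finset.sum_comm]
    _ = ∑ j, ∑ j', ∑ k, ∑ w, u j * u j' * ∑ i, P.a h w k i j * P.a h w k i j' := by
        refine Finset.sum_congr rfl fun j _ => ?_
        rw [Finset.sum_comm]
    _ = ∑ j, ∑ j', u j * u j' * (if j = j' then 1 else 0) := by
        refine Finset.sum_congr rfl fun j _ => Finset.sum_congr rfl fun j' _ => ?_
        simp_rw [← Finset.mul_sum]
        rw [P.tot h j j']
    _ = nsq u := by
        unfold nsq
        refine Finset.sum_congr rfl fun j _ => ?_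
        simp [sq]

lemma sum_qk_le (h : List W) (x : κ → ℤˣ) : ∑ k, qk P h k x ≤ nsq (P.A h x) := by
  rw [← sum_nsq_tot P h (P.A h x), Fintype.sum_option]
  have h0 : 0 ≤ ∑ w, nsq (mv (P.a h w none) (P.A h x)) := Finset.sum_nonneg fun _ _ => nsq_nonneg _
  have h1 : ∑ k, qk P h k x = ∑ k : κ, ∑ w, nsq (mv (P.a h w (some k)) (P.A h x)) := rfl
  linarith

lemma qk_le (h : List W) (k : κ) (x : κ → ℤˣ) : qk P h k x ≤ nsq (P.A h x) :=
  (Finset.single_le_sum (f := fun k => qk P h k x) (fun k _ => qk_nonneg P h k x)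
    (Finset.mem_univ k)).trans (sum_qk_le P h x)

/-- The two-run orthogonality. -/
lemma two_run (h h' : List W) (u u' : κ → ι → ℝ) :
    ∑ w, ∑ w', nsq (∑ k, tn (mv (P.a h w (some k)) (u k)) (mv (P.a h' w' (some k)) (u' k)))
      = ∑ k, (∑ w, nsq (mv (P.a h w (some k)) (u k)))
          * ∑ w', nsq (mv (P.a h' w' (some k)) (u' k)) := by
  have e1 : ∀ w w', nsq (∑ k, tn (mv (P.a h w (some k)) (u k)) (mv (P.a h' w' (some k)) (u' k)))
      = ∑ k, ∑ l, dot (mv (P.a h w (some k)) (u k)) (mv (P.a h w (some l)) (u l))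
          * dot (mv (P.a h' w' (some k)) (u' k)) (mv (P.a h' w' (some l)) (u' l)) := by
    intro w w'
    rw [← dot_self, dot_sum_left]
    refine Finset.sum_congr rfl fun k _ => ?_
    rw [dot_comm, dot_sum_left]
    refine Finset.sum_congr rfl fun l _ => ?_
    rw [dot_tn, dot_comm, dot_comm (mv (P.a h' w' (some l)) (u' l))]
  simp_rw [e1]
  calc ∑ w, ∑ w', ∑ k, ∑ l, dot (mv (P.a h w (some k)) (u k)) (mv (P.a h w (some l)) (u l))
          * dot (mv (P.a h' w' (some k)) (u' k)) (mv (P.a h' w' (some l)) (u' l))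
      = ∑ w, ∑ k, ∑ w', ∑ l, dot (mv (P.a h w (some k)) (u k)) (mv (P.a h w (some l)) (u l))
          * dot (mv (P.a h' w' (some k)) (u' k)) (mv (P.a h' w' (some l)) (u' l)) := by
        refine Finset.sum_congr rfl fun w _ => ?_
        rw [Finset.sum_comm]
    _ = ∑ k, ∑ w, ∑ w', ∑ l, dot (mv (P.a h w (some k)) (u k)) (mv (P.a h w (some l)) (u l))
          * dot (mv (P.a h' w' (some k)) (u' k)) (mv (P.a h' w' (some l)) (u' l)) := by
        rw [Finset.sum_comm]
    _ = ∑ k, ∑ w, ∑ l, ∑ w', dot (mv (P.a h w (some k)) (u k)) (mv (P.a h w (some l)) (u l))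
          * dot (mv (P.a h' w' (some k)) (u' k)) (mv (P.a h' w' (some l)) (u' l)) := by
        refine Finset.sum_congr rfl fun k _ => Finset.sum_congr rfl fun w _ => ?_
        rw [Finset.sum_comm]
    _ = ∑ k, ∑ l, ∑ w, ∑ w', dot (mv (P.a h w (some k)) (u k)) (mv (P.a h w (some l)) (u l))
          * dot (mv (P.a h' w' (some k)) (u' k)) (mv (P.a h' w' (some l)) (u' l)) := by
        refine Finset.sum_congr rfl fun k _ => ?_
        rw [Finset.sum_comm]
    _ = ∑ k, ∑ l, (∑ w, dot (mv (P.a h w (some k)) (u k)) (mv (P.a h w (some l)) (u l)))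
          * ∑ w', dot (mv (P.a h' w' (some k)) (u' k)) (mv (P.a h' w' (some l)) (u' l)) := by
        refine Finset.sum_congr rfl fun k _ => Finset.sum_congr rfl fun l _ => ?_
        rw [Finset.sum_mul_sum]
    _ = _ := by
        refine Finset.sum_congr rfl fun k _ => ?_
        rw [Finset.sum_eq_single k]
        · simp_rw [dot_self]
        · intro l _ hl
          rw [sum_dot_orth P h (some k) (some l) (by simpa using Ne.symm hl), zero_mul]
        · intro hk
          exact absurd (Finset.mem_univ k) hk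

/-- The excess over the domination. -/
noncomputable def ek (ν : List W → κ → ℝ) (h : List W) (k : κ) (x : κ → ℤˣ) : ℝ :=
  max (qk P h k x - ν h k * nsq (P.A h x)) 0

/-- The average excess at time `t`. -/
noncomputable def Et (ν : List W → κ → ℝ) (t : ℕ) : ℝ := S t (fun h => Ex (fun x => ∑ k, ek P ν h k x))

/-- The average weight of a position at time `t`. -/
noncomputable def dl (ν : List W → κ → ℝ) (t : ℕ) (k : κ) : ℝ := S t (fun h => P.p h * ν h k)

lemma ek_nonneg (ν : List W → κ → ℝ) (h : List W) (k : κ) (x : κ → ℤˣ) : 0 ≤ ek P ν h k x :=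
  le_max_right _ _

lemma Et_nonneg (ν : List W → κ → ℝ) (t : ℕ) : 0 ≤ Et P ν t :=
  S_nonneg t fun h => Ex_nonneg fun x => Finset.sum_nonneg fun k _ => ek_nonneg P ν h k x

lemma dl_nonneg (ν : List W → κ → ℝ) (hν0 : ∀ h k, 0 ≤ ν h k) (t : ℕ) (k : κ) : 0 ≤ dl P ν t k :=
  S_nonneg t fun h => mul_nonneg (P.p_nonneg h) (hν0 h k)

lemma sum_dl (ν : List W → κ → ℝ) (m : ℝ) (hν : ∀ h, ∑ k, ν h k ≤ m) (t : ℕ) :
    ∑ k, dl P ν t k ≤ m := by
  unfold dl
  rw [← S_sum]
  calc S t (fun h => ∑ k, P.p h * ν h k) ≤ S t (fun h => m * P.p h) := by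
        refine S_mono t fun h => ?_
        rw [← Finset.mul_sum, mul_comm]
        exact mul_le_mul_of_nonneg_right (hν h) (P.p_nonneg h)
    _ = m := by rw [S_mul_left, P.S_p, mul_one]

/-- The probability, for independent inputs, of a bad pair of transcripts. -/
lemma bad_le (ν : List W → κ → ℝ) (hν0 : ∀ h k, 0 ≤ ν h k) (m : ℝ) (hν : ∀ h, ∑ k, ν h k ≤ m)
    (T : ℕ) (ε θ : ℝ) (hε : 0 < ε) (hθ : 0 ≤ θ) (hdl : ∀ t < T, ∀ k, dl P ν t k ≤ θ) :
    SS T T (fun a b => ind (¬ gd ν ε a b) * (P.p a * P.p b)) ≤ (T : ℝ) ^ 2 * (m * θ) / ε := by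
  set B : List W → List W → ℝ := fun h h' => ind (¬ gp ν ε h h') with hB
  have step1 : SS T T (fun a b => ind (¬ gd ν ε a b) * (P.p a * P.p b))
      ≤ SS T T (fun a b => acc (fun h _ => acc (fun h' _ => B h h') b) a * (P.p a * P.p b)) := by
    refine SS_mono T T fun a b => ?_
    exact mul_le_mul_of_nonneg_right (not_gd_le ν ε a b) (mul_nonneg (P.p_nonneg a) (P.p_nonneg b))
  have hacc : ∀ c : List W → ℝ, S T (fun a => acc (fun h _ => c h) a * P.p a)
      = ∑ s ∈ Finset.range T, S s (fun h => c h * P.p h) := by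
    intro c
    rw [P.S_acc T (fun h _ => c h)]
    refine Finset.sum_congr rfl fun s _ => S_congr' s fun h _ => ?_
    rw [← Finset.mul_sum, P.sum_p]
  have step2 : SS T T (fun a b => acc (fun h _ => acc (fun h' _ => B h h') b) a * (P.p a * P.p b))
      = ∑ s ∈ Finset.range T, ∑ t ∈ Finset.range T,
        SS s t (fun h h' => B h h' * (P.p h * P.p h')) := by
    unfold SS
    rw [S_S_comm]
    have e1 : ∀ b : List W, S T (fun a => acc (fun h _ => acc (fun h' _ => B h h') b) a
          * (P.p a * P.p b))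
        = ∑ s ∈ Finset.range T, S s (fun h => P.p h * (acc (fun h' _ => B h h') b * P.p b)) := by
      intro b
      have : ∀ a : List W, acc (fun h _ => acc (fun h' _ => B h h') b) a * (P.p a * P.p b)
          = P.p b * (acc (fun h _ => acc (fun h' _ => B h h') b) a * P.p a) := fun a => by ring
      simp_rw [this]
      rw [S_mul_left, hacc, Finset.mul_sum]
      refine Finset.sum_congr rfl fun s _ => ?_
      rw [← S_mul_left]
      refine S_congr' s fun h _ => by ring
    simp_rw [e1]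
    rw [S_sum]
    refine Finset.sum_congr rfl fun s _ => ?_
    rw [S_S_comm, ← S_sum]
    refine S_congr' s fun h _ => ?_
    rw [S_mul_left, hacc, Finset.mul_sum]
    refine Finset.sum_congr rfl fun t _ => ?_
    rw [← S_mul_left]
    refine S_congr' t fun h' _ => by ring
  have step3 : ∀ s ∈ Finset.range T, ∀ t ∈ Finset.range T,
      SS s t (fun h h' => B h h' * (P.p h * P.p h')) ≤ m * θ / ε := by
    intro s hsT t htT
    rw [Finset.mem_range] at hsT htT
    calc SS s t (fun h h' => B h h' * (P.p h * P.p h'))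
        ≤ SS s t (fun h h' => 1 / ε * ∑ k, (P.p h * ν h k) * (P.p h' * ν h' k)) := by
          refine SS_mono s t fun h h' => ?_
          have hpp : 0 ≤ P.p h * P.p h' := mul_nonneg (P.p_nonneg h) (P.p_nonneg h')
          have hs0 : 0 ≤ ∑ k, ν h k * ν h' k :=
            Finset.sum_nonneg fun k _ => mul_nonneg (hν0 h k) (hν0 h' k)
          have h4 : B h h' * ε ≤ ∑ k, ν h k * ν h' k := by
            show ind (¬ gp ν ε h h') * ε ≤ _
            by_cases hq : gp ν ε h h'
            · have : ind (¬ gp ν ε h h') = 0 := by unfold ind; rw [if_neg (not_not.2 hq)]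
              rw [this, zero_mul]; exact hs0
            · have : ind (¬ gp ν ε h h') = 1 := by unfold ind; rw [if_pos hq]
              rw [this, one_mul]
              unfold gp at hq
              exact (not_le.1 hq).le
          have e : ∑ k, (P.p h * ν h k) * (P.p h' * ν h' k)
              = (∑ k, ν h k * ν h' k) * (P.p h * P.p h') := by
            rw [Finset.sum_mul]
            refine Finset.sum_congr rfl fun k _ => by ring
          rw [e]
          calc B h h' * (P.p h * P.p h') = 1 / ε * ((B h h' * ε) * (P.p h * P.p h')) := by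
                field_simp
            _ ≤ _ := mul_le_mul_of_nonneg_left (mul_le_mul_of_nonneg_right h4 hpp) (by positivity)
      _ = 1 / ε * ∑ k, dl P ν s k * dl P ν t k := by
          rw [SS_mul_left, SS_sum]
          congr 1
          refine Finset.sum_congr rfl fun k _ => ?_
          rw [SS_mul s t (fun h => P.p h * ν h k) (fun h' => P.p h' * ν h' k)]
          rfl
      _ ≤ 1 / ε * (m * θ) := by
          refine mul_le_mul_of_nonneg_left ?_ (by positivity)
          calc ∑ k, dl P ν s k * dl P ν t k ≤ ∑ k, dl P ν s k * θ :=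
                Finset.sum_le_sum fun k _ =>
                  mul_le_mul_of_nonneg_left (hdl t htT k) (dl_nonneg P ν hν0 s k)
            _ ≤ m * θ := by
                rw [← Finset.sum_mul]
                exact mul_le_mul_of_nonneg_right (sum_dl P ν m hν s) hθ
      _ = m * θ / ε := by ring
  rw [step2] at step1
  refine step1.trans ?_
  calc ∑ s ∈ Finset.range T, ∑ t ∈ Finset.range T, SS s t (fun h h' => B h h' * (P.p h * P.p h'))
      ≤ ∑ _s ∈ Finset.range T, ∑ _t ∈ Finset.range T, m * θ / ε :=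
        Finset.sum_le_sum fun s hs' => Finset.sum_le_sum fun t ht' => step3 s hs' t ht'
    _ = _ := by
        simp only [Finset.sum_const, Finset.card_range, nsmul_eq_mul]
        ring

/-- Peeling. -/
lemma peel2 (N : (κ → ι → ℝ) → (κ → ι → ℝ) → ℝ) (N0 : ∀ u v, 0 ≤ N u v)
    (N1 : ∀ h x u v, ∑ w, N (fun k => mv (P.Q h w x) (u k)) v = N u v)
    (N2 : ∀ h x u v, ∑ w, N u (fun k => mv (P.Q h w x) (v k)) = N u v)
    (ν : List W → κ → ℝ) (ε : ℝ) (s t T : ℕ) (hsT : s < T) (htT : t < T) (x y : κ → ℤˣ) :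
    SS T T (fun a b => ind (gd ν ε a b) * N (fun k => P.z s k a x) (fun k => P.z t k b y))
      ≤ SS (s + 1) (t + 1)
        (fun a b => ind (gd ν ε a b) * N (fun k => P.z s k a x) (fun k => P.z t k b y)) := by
  unfold SS
  have h1 : ∀ a : List W,
      S T (fun b => ind (gd ν ε a b) * N (fun k => P.z s k a x) (fun k => P.z t k b y))
      ≤ S (t + 1) (fun b => ind (gd ν ε a b) * N (fun k => P.z s k a x) (fun k => P.z t k b y)) := by
    intro a
    refine S_peel (t + 1) T htT _ fun b hb => ?_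
    calc ∑ w, ind (gd ν ε a (w :: b)) * N (fun k => P.z s k a x) (fun k => P.z t k (w :: b) y)
        ≤ ∑ w, ind (gd ν ε a b) * N (fun k => P.z s k a x) (fun k => mv (P.Q b w y) (P.z t k b y)) := by
          refine Finset.sum_le_sum fun w _ => ?_
          have e : (fun k => P.z t k (w :: b) y) = fun k => mv (P.Q b w y) (P.z t k b y) := by
            funext k
            exact P.z_cons t k b w y (by omega)
          rw [e]
          exact mul_le_mul_of_nonneg_right (ind_mono (gd_right ν ε a w b)) (N0 _ _)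
      _ = _ := by rw [← Finset.mul_sum, N2]
  refine (S_mono T h1).trans ?_
  refine S_peel (s + 1) T hsT _ fun a ha => ?_
  rw [← S_sum]
  refine S_mono _ fun b => ?_
  calc ∑ w, ind (gd ν ε (w :: a) b) * N (fun k => P.z s k (w :: a) x) (fun k => P.z t k b y)
      ≤ ∑ w, ind (gd ν ε a b) * N (fun k => mv (P.Q a w x) (P.z s k a x)) (fun k => P.z t k b y) := by
        refine Finset.sum_le_sum fun w _ => ?_
        have e : (fun k => P.z s k (w :: a) x) = fun k => mv (P.Q a w x) (P.z s k a x) := by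
          funext k
          exact P.z_cons s k a w x (by omega)
        rw [e]
        exact mul_le_mul_of_nonneg_right (ind_mono fun hg => hg.2) (N0 _ _)
    _ = _ := by rw [← Finset.mul_sum, N1]

/-- The collision functional at the lower level. -/
lemma coll_le {r : ℝ} (h0 : 0 ≤ r) (h1 : r ≤ 1) (ν : List W → κ → ℝ) (hν0 : ∀ h k, 0 ≤ ν h k)
    (ε : ℝ) (hε : 0 ≤ ε) (s t : ℕ) :
    PE r (fun x y => SS s t (fun h h' => ind (gp ν ε h h')
        * ∑ k, qk P h k (fl k x) * qk P h' k (fl k y)))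
      ≤ ε + Et P ν s + Et P ν t := by
  rw [PE_SS]
  have e1 : ∀ h h' : List W, PE r (fun x y => ind (gp ν ε h h')
        * ∑ k, qk P h k (fl k x) * qk P h' k (fl k y))
      = PE r (fun x y => ind (gp ν ε h h') * ∑ k, qk P h k x * qk P h' k y) := by
    intro h h'
    rw [PE_mul_left, PE_mul_left, PE_sum, PE_sum]
    congr 1
    refine Finset.sum_congr rfl fun k _ => ?_
    exact PE_fl r k (fun x y => qk P h k x * qk P h' k y)
  simp_rw [e1]
  have e2 : ∀ h h' : List W, ∀ x y : κ → ℤˣ, ind (gp ν ε h h') * ∑ k, qk P h k x * qk P h' k y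
      ≤ ε * (nsq (P.A h x) * nsq (P.A h' y)) + (∑ k, ek P ν h k x) * nsq (P.A h' y)
        + nsq (P.A h x) * ∑ k, ek P ν h' k y := by
    intro h h' x y
    have hF := nsq_nonneg (P.A h x)
    have hF' := nsq_nonneg (P.A h' y)
    have hE : 0 ≤ ∑ k, ek P ν h k x := Finset.sum_nonneg fun k _ => ek_nonneg P ν h k x
    have hE' : 0 ≤ ∑ k, ek P ν h' k y := Finset.sum_nonneg fun k _ => ek_nonneg P ν h' k y
    by_cases hq : gp ν ε h h'
    · have h3 : ind (gp ν ε h h') = 1 := by unfold ind; rw [if_pos hq]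
      rw [h3, one_mul]
      calc ∑ k, qk P h k x * qk P h' k y
          ≤ ∑ k, ((ν h k * ν h' k) * (nsq (P.A h x) * nsq (P.A h' y)) + ek P ν h k x * nsq (P.A h' y)
            + nsq (P.A h x) * ek P ν h' k y) := by
            refine Finset.sum_le_sum fun k _ => ?_
            have a1 : qk P h k x ≤ ν h k * nsq (P.A h x) + ek P ν h k x := by
              have := le_max_left (qk P h k x - ν h k * nsq (P.A h x)) 0
              unfold ek; linarith
            have a2 : qk P h' k y ≤ ν h' k * nsq (P.A h' y) + ek P ν h' k y := by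
              have := le_max_left (qk P h' k y - ν h' k * nsq (P.A h' y)) 0
              unfold ek; linarith
            have b1 := qk_nonneg P h k x
            have b2 := qk_nonneg P h' k y
            have c1 := qk_le P h k x
            have c2 := qk_le P h' k y
            have d1 := ek_nonneg P ν h k x
            have d2 := ek_nonneg P ν h' k y
            have n1 : 0 ≤ ν h k * nsq (P.A h x) := mul_nonneg (hν0 h k) hF
            have n2 : 0 ≤ ν h' k * nsq (P.A h' y) := mul_nonneg (hν0 h' k) hF'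
            have a3 : ek P ν h k x ≤ qk P h k x := by
              unfold ek
              exact max_le (by linarith) b1
            -- q q' = (q - e) q' + e q'
            have s1 : (qk P h k x - ek P ν h k x) * qk P h' k y
                ≤ (ν h k * nsq (P.A h x)) * (ν h' k * nsq (P.A h' y))
                  + nsq (P.A h x) * ek P ν h' k y := by
              have g1 : qk P h k x - ek P ν h k x ≤ ν h k * nsq (P.A h x) := by linarith
              have g2 : 0 ≤ qk P h k x - ek P ν h k x := by linarith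
              have g3 : qk P h k x - ek P ν h k x ≤ nsq (P.A h x) := by linarith
              calc (qk P h k x - ek P ν h k x) * qk P h' k y
                  ≤ (qk P h k x - ek P ν h k x) * (ν h' k * nsq (P.A h' y) + ek P ν h' k y) :=
                    mul_le_mul_of_nonneg_left a2 g2
                _ = (qk P h k x - ek P ν h k x) * (ν h' k * nsq (P.A h' y))
                    + (qk P h k x - ek P ν h k x) * ek P ν h' k y := by ring
                _ ≤ _ := add_le_add (mul_le_mul_of_nonneg_right g1 n2)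
                    (mul_le_mul_of_nonneg_right g3 d2)
            have s2 : ek P ν h k x * qk P h' k y ≤ ek P ν h k x * nsq (P.A h' y) :=
              mul_le_mul_of_nonneg_left c2 d1
            have s3 : qk P h k x * qk P h' k y
                = (qk P h k x - ek P ν h k x) * qk P h' k y + ek P ν h k x * qk P h' k y := by ring
            rw [s3]
            have s4 : (ν h k * nsq (P.A h x)) * (ν h' k * nsq (P.A h' y))
                = (ν h k * ν h' k) * (nsq (P.A h x) * nsq (P.A h' y)) := by ring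
            rw [s4] at s1
            linarith
        _ = (∑ k, ν h k * ν h' k) * (nsq (P.A h x) * nsq (P.A h' y))
            + (∑ k, ek P ν h k x) * nsq (P.A h' y) + nsq (P.A h x) * ∑ k, ek P ν h' k y := by
            rw [Finset.sum_add_distrib, Finset.sum_add_distrib, ← Finset.sum_mul, ← Finset.sum_mul,
              ← Finset.mul_sum]
        _ ≤ _ := by
            have := mul_le_mul_of_nonneg_right hq (mul_nonneg hF hF')
            linarith
    · have h3 : ind (gp ν ε h h') = 0 := by unfold ind; rw [if_neg hq]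
      rw [h3, zero_mul]
      positivity
  calc SS s t (fun h h' => PE r (fun x y => ind (gp ν ε h h') * ∑ k, qk P h k x * qk P h' k y))
      ≤ SS s t (fun h h' => PE r (fun x y => ε * (nsq (P.A h x) * nsq (P.A h' y))
        + (∑ k, ek P ν h k x) * nsq (P.A h' y) + nsq (P.A h x) * ∑ k, ek P ν h' k y)) :=
        SS_mono s t fun h h' => PE_mono h0 h1 (e2 h h')
    _ = PE r (fun x y => SS s t (fun h h' => ε * (nsq (P.A h x) * nsq (P.A h' y))
        + (∑ k, ek P ν h k x) * nsq (P.A h' y) + nsq (P.A h x) * ∑ k, ek P ν h' k y)) := by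
        rw [PE_SS]
    _ = PE r (fun x y => ε + S s (fun h => ∑ k, ek P ν h k x) + S t (fun h' => ∑ k, ek P ν h' k y)) := by
        refine PE_congr fun x y => ?_
        rw [SS_add, SS_add, SS_mul_left, SS_mul s t (fun h => nsq (P.A h x)) (fun h' => nsq (P.A h' y)),
          SS_mul s t (fun h => ∑ k, ek P ν h k x) (fun h' => nsq (P.A h' y)),
          SS_mul s t (fun h => nsq (P.A h x)) (fun h' => ∑ k, ek P ν h' k y),
          P.S_nsq, P.S_nsq]
        ring
    _ = ε + Et P ν s + Et P ν t := by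
        rw [PE_add, PE_add, PE_const, PE_left r (fun x => S s (fun h => ∑ k, ek P ν h k x)),
          PE_right r (fun y => S t (fun h => ∑ k, ek P ν h k y)), Ex_S, Ex_S]
        rfl

lemma U1_le {r : ℝ} (h0 : 0 ≤ r) (h1 : r ≤ 1) (ν : List W → κ → ℝ) (hν0 : ∀ h k, 0 ≤ ν h k)
    (ε : ℝ) (hε : 0 ≤ ε) (s t T : ℕ) (hsT : s < T) (htT : t < T) :
    PE r (fun x y => SS T T (fun a b => ind (gd ν ε a b)
        * nsq (∑ k, tn (P.z s k a x) (P.z t k b y))))
      ≤ ε + Et P ν s + Et P ν t := by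
  refine le_trans (PE_mono h0 h1 fun x y => ?_) (coll_le P h0 h1 ν hν0 ε hε s t)
  refine (peel2 P (fun u v => nsq (∑ k, tn (u k) (v k))) (fun u v => nsq_nonneg _)
    P.N_tn_left P.N_tn_right ν ε s t T hsT htT x y).trans ?_
  rw [SS_succ]
  refine SS_mono' s t fun h h' hh hh' => ?_
  unfold qk
  rw [← two_run P h h' (fun k => P.A h (fl k x)) (fun k => P.A h' (fl k y)), Finset.mul_sum]
  refine Finset.sum_le_sum fun w _ => ?_
  rw [Finset.mul_sum]
  refine Finset.sum_le_sum fun w' _ => ?_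
  simp_rw [P.z_top s _ h w x hh, P.z_top t _ h' w' y hh']
  exact mul_le_mul_of_nonneg_right (ind_mono fun hg => hg.1.1) (nsq_nonneg _)

lemma U2_le {r : ℝ} (h0 : 0 ≤ r) (h1 : r ≤ 1) (ν : List W → κ → ℝ) (hν0 : ∀ h k, 0 ≤ ν h k)
    (ε : ℝ) (hε : 0 ≤ ε) (s t T : ℕ) (hsT : s < T) (htT : t < T) :
    PE r (fun x y => SS T T (fun a b => ind (gd ν ε a b)
        * ∑ k, nsq (P.z s k a x) * nsq (P.z t k b y)))
      ≤ ε + Et P ν s + Et P ν t := by
  refine le_trans (PE_mono h0 h1 fun x y => ?_) (coll_le P h0 h1 ν hν0 ε hε s t)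
  refine (peel2 P (fun u v => ∑ k, nsq (u k) * nsq (v k))
      (fun u v => Finset.sum_nonneg fun k _ => mul_nonneg (nsq_nonneg _) (nsq_nonneg _))
      P.N_pr_left P.N_pr_right ν ε s t T hsT htT x y).trans ?_
  rw [SS_succ]
  refine SS_mono' s t fun h h' hh hh' => ?_
  have e : ∑ k, qk P h k (fl k x) * qk P h' k (fl k y)
      = ∑ w, ∑ w', ∑ k, nsq (mv (P.a h w (some k)) (P.A h (fl k x)))
        * nsq (mv (P.a h' w' (some k)) (P.A h' (fl k y))) := by
    unfold qk
    simp_rw [Finset.sum_mul_sum]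
    calc ∑ k, ∑ w, ∑ w', nsq (mv (P.a h w (some k)) (P.A h (fl k x)))
        * nsq (mv (P.a h' w' (some k)) (P.A h' (fl k y)))
        = ∑ w, ∑ k, ∑ w', nsq (mv (P.a h w (some k)) (P.A h (fl k x)))
        * nsq (mv (P.a h' w' (some k)) (P.A h' (fl k y))) := by rw [Finset.sum_comm]
      _ = _ := by
        refine Finset.sum_congr rfl fun w _ => ?_
        rw [Finset.sum_comm]
  rw [e, Finset.mul_sum]
  refine Finset.sum_le_sum fun w _ => ?_
  rw [Finset.mul_sum]
  refine Finset.sum_le_sum fun w' _ => ?_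
  simp_rw [P.z_top s _ h w x hh, P.z_top t _ h' w' y hh']
  exact mul_le_mul_of_nonneg_right (ind_mono fun hg => hg.1.1)
    (Finset.sum_nonneg fun k _ => mul_nonneg (nsq_nonneg _) (nsq_nonneg _))

/-- The bound for one pair of steps. -/
lemma pair_bound {r : ℝ} (h0 : 0 ≤ r) (h1 : r ≤ 1) (ν : List W → κ → ℝ) (hν0 : ∀ h k, 0 ≤ ν h k)
    (c : ℝ) (hc : 0 < c) (s t T : ℕ) (hsT : s < T) (htT : t < T) :
    PE r (fun x y => SS T T (fun a b => ind (gd ν (c ^ 2) a b)
      * |∑ k, dot (P.z s k a x) (P.qq a k x) * dot (P.z t k b y) (P.qq b k y)|))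
      ≤ 12 * T * c + 6 * T / c * (Et P ν s + Et P ν t) := by
  have hT1 : (1 : ℝ) ≤ T := by
    have : 1 ≤ T := by omega
    exact_mod_cast this
  set c1 : ℝ := 1 / c with hc1
  set c2 : ℝ := 8 * (T : ℝ) / c with hc2
  have hc1' : 0 < c1 := by positivity
  have hc2' : 0 < c2 := by positivity
  have hpt : ∀ x y : κ → ℤˣ, SS T T (fun a b => ind (gd ν (c ^ 2) a b)
      * |∑ k, dot (P.z s k a x) (P.qq a k x) * dot (P.z t k b y) (P.qq b k y)|)
      ≤ (2 * c1) * SS T T (fun a b => ind (gd ν (c ^ 2) a b)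
          * nsq (∑ k, tn (P.z s k a x) (P.z t k b y)))
        + (2 / c1) * SS T T (fun a b => nsq (P.A a x) * nsq (P.A b y))
        + (c2 / 2) * SS T T (fun a b => ind (gd ν (c ^ 2) a b)
          * ∑ k, nsq (P.z s k a x) * nsq (P.z t k b y))
        + (1 / (2 * c2)) * SS T T (fun a b => ∑ k, nsq (P.rr a b k x y)) := by
    intro x y
    rw [← SS_mul_left, ← SS_mul_left, ← SS_mul_left, ← SS_mul_left, ← SS_add, ← SS_add, ← SS_add]
    refine SS_mono T T fun a b => ?_
    have hb := mul_le_mul_of_nonneg_left (P.pt_bound c1 c2 hc1' hc2' s t a b x y)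
      (ind_nonneg (gd ν (c ^ 2) a b))
    refine hb.trans ?_
    have h3 : ind (gd ν (c ^ 2) a b) * (nsq (P.A a x) * nsq (P.A b y) / c1)
        ≤ nsq (P.A a x) * nsq (P.A b y) / c1 := by
      refine mul_le_of_le_one_left ?_ (ind_le_one _)
      exact div_nonneg (mul_nonneg (nsq_nonneg _) (nsq_nonneg _)) hc1'.le
    have h4 : ind (gd ν (c ^ 2) a b) * ((∑ k, nsq (P.rr a b k x y)) / c2)
        ≤ (∑ k, nsq (P.rr a b k x y)) / c2 := by
      refine mul_le_of_le_one_left ?_ (ind_le_one _)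
      exact div_nonneg (Finset.sum_nonneg fun k _ => nsq_nonneg _) hc2'.le
    have e3 : (2 / c1) * (nsq (P.A a x) * nsq (P.A b y)) = 2 * (nsq (P.A a x) * nsq (P.A b y) / c1) := by
      ring
    have e4 : (1 / (2 * c2)) * (∑ k, nsq (P.rr a b k x y)) = ((∑ k, nsq (P.rr a b k x y)) / c2) / 2 := by
      field_simp
    rw [e3, e4]
    linarith
  refine (PE_mono h0 h1 hpt).trans ?_
  rw [PE_add, PE_add, PE_add, PE_mul_left, PE_mul_left, PE_mul_left, PE_mul_left, P.PE_AA]
  have b1 := U1_le P h0 h1 ν hν0 (c ^ 2) (by positivity) s t T hsT htT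
  have b2 := U2_le P h0 h1 ν hν0 (c ^ 2) (by positivity) s t T hsT htT
  have b3 := P.PE_rr h0 h1 T
  set E := Et P ν s + Et P ν t with hE
  have hE0 : 0 ≤ E := add_nonneg (Et_nonneg P ν s) (Et_nonneg P ν t)
  have b1' : _ ≤ c ^ 2 + E := b1.trans (by rw [hE]; linarith)
  have b2' : _ ≤ c ^ 2 + E := b2.trans (by rw [hE]; linarith)
  have d1 := mul_le_mul_of_nonneg_left b1' (by positivity : 0 ≤ 2 * c1)
  have d2 := mul_le_mul_of_nonneg_left b2' (by positivity : 0 ≤ c2 / 2)
  have d3 := mul_le_mul_of_nonneg_left b3 (by positivity : 0 ≤ 1 / (2 * c2))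
  have f1 : 2 * c1 * (c ^ 2 + E) = 2 * c + 2 * (E / c) := by
    rw [hc1]; field_simp
  have f2 : c2 / 2 * (c ^ 2 + E) = 4 * T * c + 4 * T * (E / c) := by
    rw [hc2]; field_simp; ring
  have f3 : 1 / (2 * c2) * (64 * T) = 4 * c := by
    rw [hc2]; field_simp; ring
  have f4 : 2 / c1 * 1 = 2 * c := by
    rw [hc1]; field_simp
  rw [f1] at d1
  rw [f2] at d2
  rw [f3] at d3
  rw [f4]
  have hEc : 0 ≤ E / c := by positivity
  have g1 : 2 * (E / c) ≤ 2 * T * (E / c) := by
    have := mul_le_mul_of_nonneg_right hT1 hEc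
    linarith
  have g2 : c ≤ T * c := by
    have := mul_le_mul_of_nonneg_right hT1 hc.le
    linarith
  have g3 : 6 * T / c * E = 6 * T * (E / c) := by ring
  rw [g3]
  linarith

/-- The part of the second moment coming from good pairs. -/
noncomputable def Gd (ν : List W → κ → ℝ) (T : ℕ) (c : ℝ) (g : List W → ℝ) (r : ℝ) : ℝ :=
  SS T T (fun a b => (ind (gd ν (c ^ 2) a b) * (g a * g b))
    * PE r (fun x y => nsq (P.A a x) * nsq (P.A b y)))

/-- The part of the second moment coming from bad pairs. -/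
noncomputable def Bd (ν : List W → κ → ℝ) (T : ℕ) (c : ℝ) (g : List W → ℝ) (r : ℝ) : ℝ :=
  SS T T (fun a b => (ind (¬ gd ν (c ^ 2) a b) * (g a * g b))
    * PE r (fun x y => nsq (P.A a x) * nsq (P.A b y)))

lemma Gd_deriv (ν : List W → κ → ℝ) (T : ℕ) (c : ℝ) (g : List W → ℝ) (r : ℝ) :
    HasDerivAt (Gd P ν T c g) (SS T T (fun a b => (ind (gd ν (c ^ 2) a b) * (g a * g b))
      * ∑ k, PE r (fun x y => D (fun x => nsq (P.A a x)) k x * D (fun y => nsq (P.A b y)) k y))) r := by
  unfold Gd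
  exact hasDerivAt_SS T T _ _ r fun a b =>
    (hasDerivAt_PE (fun x => nsq (P.A a x)) (fun y => nsq (P.A b y)) r).const_mul _

/-- The total excess. -/
noncomputable def Exc (ν : List W → κ → ℝ) (T : ℕ) : ℝ := ∑ t ∈ Finset.range T, Et P ν t

lemma Exc_nonneg (ν : List W → κ → ℝ) (T : ℕ) : 0 ≤ Exc P ν T :=
  Finset.sum_nonneg fun t _ => Et_nonneg P ν t

lemma deriv_bound {r : ℝ} (h0 : 0 ≤ r) (h1 : r ≤ 1) (ν : List W → κ → ℝ)
    (hν0 : ∀ h k, 0 ≤ ν h k) (c : ℝ) (hc : 0 < c) (T : ℕ)
    (g : List W → ℝ) (hg0 : ∀ a, 0 ≤ g a) (hg1 : ∀ a, g a ≤ 1) :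
    |SS T T (fun a b => (ind (gd ν (c ^ 2) a b) * (g a * g b))
      * ∑ k, PE r (fun x y => D (fun x => nsq (P.A a x)) k x * D (fun y => nsq (P.A b y)) k y))|
      ≤ 12 * (T : ℝ) ^ 3 * c + 12 * (T : ℝ) ^ 2 / c * Exc P ν T := by
  refine (SS_abs _ _ _).trans ?_
  have step : SS T T (fun a b => |(ind (gd ν (c ^ 2) a b) * (g a * g b))
      * ∑ k, PE r (fun x y => D (fun x => nsq (P.A a x)) k x * D (fun y => nsq (P.A b y)) k y)|)
      ≤ SS T T (fun a b => PE r (fun x y => ∑ s ∈ Finset.range T, ∑ t ∈ Finset.range T,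
        ind (gd ν (c ^ 2) a b)
          * |∑ k, dot (P.z s k a x) (P.qq a k x) * dot (P.z t k b y) (P.qq b k y)|)) := by
    refine SS_mono' T T fun a b ha hb => ?_
    rw [abs_mul]
    have hgg : |ind (gd ν (c ^ 2) a b) * (g a * g b)| ≤ ind (gd ν (c ^ 2) a b) := by
      have hi := ind_nonneg (gd ν (c ^ 2) a b)
      have h3 : 0 ≤ g a * g b := mul_nonneg (hg0 a) (hg0 b)
      have h4 : g a * g b ≤ 1 := mul_le_one₀ (hg1 a) (hg0 b) (hg1 b)
      rw [abs_of_nonneg (mul_nonneg hi h3)]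
      exact mul_le_of_le_one_right hi h4
    rw [← PE_sum]
    calc |ind (gd ν (c ^ 2) a b) * (g a * g b)|
          * |PE r (fun x y => ∑ k, D (fun x => nsq (P.A a x)) k x * D (fun y => nsq (P.A b y)) k y)|
        ≤ ind (gd ν (c ^ 2) a b)
          * PE r (fun x y => |∑ k, D (fun x => nsq (P.A a x)) k x * D (fun y => nsq (P.A b y)) k y|) :=
          mul_le_mul hgg (PE_abs h0 h1 _) (abs_nonneg _) (ind_nonneg _)
      _ = PE r (fun x y => ind (gd ν (c ^ 2) a b)
          * |∑ k, D (fun x => nsq (P.A a x)) k x * D (fun y => nsq (P.A b y)) k y|) := by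
          rw [PE_mul_left]
      _ ≤ _ := by
          refine PE_mono h0 h1 fun x y => ?_
          rw [P.D_prod T a b ha.le hb.le]
          simp_rw [← Finset.mul_sum]
          refine mul_le_mul_of_nonneg_left ?_ (ind_nonneg _)
          refine (Finset.abs_sum_le_sum_abs _ _).trans ?_
          exact Finset.sum_le_sum fun s _ => Finset.abs_sum_le_sum_abs _ _
  refine step.trans ?_
  rw [← PE_SS r T T (fun a b x y => ∑ s ∈ Finset.range T, ∑ t ∈ Finset.range T,
        ind (gd ν (c ^ 2) a b)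
          * |∑ k, dot (P.z s k a x) (P.qq a k x) * dot (P.z t k b y) (P.qq b k y)|)]
  simp_rw [SS_sum]
  rw [PE_sum]
  simp_rw [PE_sum]
  calc ∑ s ∈ Finset.range T, ∑ t ∈ Finset.range T,
        PE r (fun x y => SS T T (fun a b => ind (gd ν (c ^ 2) a b)
          * |∑ k, dot (P.z s k a x) (P.qq a k x) * dot (P.z t k b y) (P.qq b k y)|))
      ≤ ∑ s ∈ Finset.range T, ∑ t ∈ Finset.range T,
          (12 * T * c + 6 * T / c * (Et P ν s + Et P ν t)) :=
        Finset.sum_le_sum fun s hs' => Finset.sum_le_sum fun t ht' =>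
          pair_bound P h0 h1 ν hν0 c hc s t T (Finset.mem_range.1 hs') (Finset.mem_range.1 ht')
    _ = _ := by
        simp_rw [Finset.sum_add_distrib, ← Finset.mul_sum, Finset.sum_add_distrib]
        simp only [Finset.sum_const, Finset.card_range, nsmul_eq_mul]
        rw [← Finset.mul_sum]
        change _ + 6 * (T : ℝ) / c * (T * Exc P ν T + T * Exc P ν T) = _
        ring

lemma Gd_sub (ν : List W → κ → ℝ) (hν0 : ∀ h k, 0 ≤ ν h k) (c : ℝ) (hc : 0 < c) (T : ℕ)
    (g : List W → ℝ) (hg0 : ∀ a, 0 ≤ g a) (hg1 : ∀ a, g a ≤ 1) :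
    |Gd P ν T c g 1 - Gd P ν T c g 0| ≤ 12 * (T : ℝ) ^ 3 * c + 12 * (T : ℝ) ^ 2 / c * Exc P ν T := by
  have := (convex_Icc (0 : ℝ) 1).norm_image_sub_le_of_norm_hasDerivWithin_le
    (f := Gd P ν T c g) (C := 12 * (T : ℝ) ^ 3 * c + 12 * (T : ℝ) ^ 2 / c * Exc P ν T)
    (fun r _ => (Gd_deriv P ν T c g r).hasDerivWithinAt)
    (fun r hr => by
      rw [Real.norm_eq_abs]
      exact deriv_bound P hr.1 hr.2 ν hν0 c hc T g hg0 hg1)
    (Set.left_mem_Icc.2 zero_le_one) (Set.right_mem_Icc.2 zero_le_one)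
  simpa using this

lemma Gd_add_Bd (ν : List W → κ → ℝ) (T : ℕ) (c : ℝ) (g : List W → ℝ) (r : ℝ) :
    Gd P ν T c g r + Bd P ν T c g r = PE r (fun x y => P.out T g x * P.out T g y) := by
  rw [P.PE_out]
  unfold Gd Bd
  rw [← SS_add]
  refine SS_congr' T T fun a b _ _ => ?_
  rw [ind_not]; ring

/-- The bound for the variance of a light process. -/
noncomputable def vb (T : ℕ) (c θ m E : ℝ) : ℝ :=
  24 * (T : ℝ) ^ 3 * c + 24 * (T : ℝ) ^ 2 / c * E + (T : ℝ) ^ 2 * (m * θ) / c ^ 2

/-- The light lemma. -/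
theorem light (ν : List W → κ → ℝ) (hν0 : ∀ h k, 0 ≤ ν h k) (m : ℝ) (hν : ∀ h, ∑ k, ν h k ≤ m)
    (c : ℝ) (hc : 0 < c) (θ : ℝ) (hθ : 0 ≤ θ) (T : ℕ) (hdl : ∀ t < T, ∀ k, dl P ν t k ≤ θ)
    (g : List W → ℝ) (hg0 : ∀ a, 0 ≤ g a) (hg1 : ∀ a, g a ≤ 1) :
    Cov (P.out T g) (P.out T g) ≤ vb T c θ m (Exc P ν T) := by
  have hC := Gd_sub P ν hν0 c hc T g hg0 hg1
  have hC1 := Gd_sub P ν hν0 c hc T (fun _ => 1) (fun _ => zero_le_one) (fun _ => le_rfl)
  have hPE0 : ∀ {r : ℝ}, 0 ≤ r → r ≤ 1 → ∀ a b : List W,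
      0 ≤ PE r (fun x y => nsq (P.A a x) * nsq (P.A b y)) := fun h0 h1 a b =>
    PE_nonneg h0 h1 fun x y => mul_nonneg (nsq_nonneg _) (nsq_nonneg _)
  have hB0 : 0 ≤ Bd P ν T c g 0 := by
    unfold Bd
    refine SS_nonneg T T fun a b => ?_
    exact mul_nonneg (mul_nonneg (ind_nonneg _) (mul_nonneg (hg0 a) (hg0 b)))
      (hPE0 le_rfl zero_le_one a b)
  have hB1 : Bd P ν T c g 1 ≤ Bd P ν T c (fun _ => 1) 1 := by
    unfold Bd
    refine SS_mono T T fun a b => ?_
    refine mul_le_mul_of_nonneg_right ?_ (hPE0 zero_le_one le_rfl a b)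
    refine mul_le_mul_of_nonneg_left ?_ (ind_nonneg _)
    rw [one_mul]
    exact mul_le_one₀ (hg1 a) (hg0 b) (hg1 b)
  have hone : ∀ r : ℝ, Gd P ν T c (fun _ => 1) r + Bd P ν T c (fun _ => 1) r = 1 := by
    intro r
    rw [Gd_add_Bd]
    simp_rw [P.out_one, one_mul]
    exact PE_const r 1
  have hbad : Bd P ν T c (fun _ => 1) 0 ≤ (T : ℝ) ^ 2 * (m * θ) / c ^ 2 := by
    have h1 := bad_le P ν hν0 m hν T (c ^ 2) θ (by positivity) hθ hdl
    have e : Bd P ν T c (fun _ => 1) 0
        = SS T T (fun a b => ind (¬ gd ν (c ^ 2) a b) * (P.p a * P.p b)) := by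
      unfold Bd
      refine SS_congr' T T fun a b _ _ => ?_
      rw [PE_zero]
      have : ∀ x : κ → ℤˣ, Ex (fun y => nsq (P.A a x) * nsq (P.A b y)) = nsq (P.A a x) * P.p b := by
        intro x
        rw [Ex_mul_left]; rfl
      simp_rw [this]
      rw [Ex_mul_right]
      simp only [mul_one, p]
    rw [e]
    exact h1
  have hcov : Cov (P.out T g) (P.out T g)
      = (Gd P ν T c g 1 + Bd P ν T c g 1) - (Gd P ν T c g 0 + Bd P ν T c g 0) := by
    rw [Gd_add_Bd, Gd_add_Bd, PE_one, PE_zero]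
    unfold Cov
    congr 1
    simp_rw [Ex_mul_left]
    rw [Ex_mul_right]
  have h1 := (abs_le.1 hC).2
  have h2 := (abs_le.1 hC1).1
  have h3 := hone 1
  have h4 := hone 0
  rw [hcov]
  unfold vb
  have e1 : 24 * (T : ℝ) ^ 2 / c * Exc P ν T = 2 * (12 * (T : ℝ) ^ 2 / c * Exc P ν T) := by ring
  rw [e1]
  linarith

end Pool.Agent.H703R2.AB
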