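import Pool.Agent.H703R2.AB.Dom
import Pool.Agent.H703R2.AA.Osss

/-!
# Influential coordinates and bit fixing for dominated processes
-/

set_option autoImplicit false
set_option linter.unusedSectionVars false

namespace Pool.Agent.H703R2.AB

open Finset Pool.Agent.H722R2.AA Pool.Agent.H746R2.AA Pool.Agent.H703R2.AA Pool.Agent.H703R2.AA.Pr

variable {κ ι W : Type*} [Fintype κ] [DecidableEq κ] [Fintype ι] [DecidableEq ι] [Fintype W]
variable (P : Pr κ ι W)

/-- The restricted domination. -/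
def rn (ν : List W → κ → ℝ) (k : κ) (h : List W) (l : κ) : ℝ := if l = k then 0 else ν h l

lemma rn_nonneg (ν : List W → κ → ℝ) (hν0 : ∀ h k, 0 ≤ ν h k) (k : κ) (h : List W) (l : κ) :
    0 ≤ rn ν k h l := by
  unfold rn; split_ifs
  · exact le_rfl
  · exact hν0 h l

lemma rn_sum (ν : List W → κ → ℝ) (hν0 : ∀ h k, 0 ≤ ν h k) (m : ℝ) (hν : ∀ h, ∑ k, ν h k ≤ m)
    (k : κ) (h : List W) : ∑ l, rn ν k h l ≤ m := by
  refine (Finset.sum_le_sum fun l _ => ?_).trans (hν h)
  unfold rn; split_ifs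
  · exact hν0 h l
  · exact le_rfl

lemma qk_res (k : κ) (s : ℤˣ) (h : List W) (l : κ) (x : κ → ℤˣ) :
    qk (P.res k s) h l x = if l = k then 0 else qk P h l (Function.update x k s) := by
  unfold qk
  change ∑ w, nsq (mv (P.ra k s h w (some l)) ((P.res k s).A h x)) = _
  rw [P.A_res]
  split_ifs with hl
  · subst hl
    refine Finset.sum_eq_zero fun w _ => ?_
    rw [P.ra_self]
    simp [mv, nsq]
  · simp_rw [P.ra_ne k l s h _ hl]

lemma ek_res_le (ν : List W → κ → ℝ) (k : κ) (s : ℤˣ) (h : List W) (l : κ) (x : κ → ℤˣ) :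
    ek (P.res k s) (rn ν k) h l x ≤ ek P ν h l (Function.update x k s) := by
  by_cases hl : l = k
  · have : ek (P.res k s) (rn ν k) h l x = 0 := by
      unfold ek rn
      rw [qk_res, if_pos hl, if_pos hl]
      simp
    rw [this]
    exact ek_nonneg P ν h l _
  · unfold ek rn
    rw [qk_res, if_neg hl, if_neg hl, P.A_res]

lemma Et_res (ν : List W → κ → ℝ) (k : κ) (t : ℕ) :
    Et (P.res k 1) (rn ν k) t + Et (P.res k (-1)) (rn ν k) t ≤ 2 * Et P ν t := by
  unfold Et
  rw [← S_add, ← S_mul_left]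
  refine S_mono t fun h => ?_
  rw [Ex_split k (fun x => ∑ l, ek P ν h l x)]
  have h1 : ∀ s : ℤˣ, Ex (fun x => ∑ l, ek (P.res k s) (rn ν k) h l x)
      ≤ Ex (fr k s (fun x => ∑ l, ek P ν h l x)) := fun s =>
    Ex_mono fun x => Finset.sum_le_sum fun l _ => ek_res_le P ν k s h l x
  have := h1 1
  have := h1 (-1)
  linarith

lemma Exc_res (ν : List W → κ → ℝ) (k : κ) (T : ℕ) :
    Exc (P.res k 1) (rn ν k) T + Exc (P.res k (-1)) (rn ν k) T ≤ 2 * Exc P ν T := by
  unfold Exc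
  rw [← Finset.sum_add_distrib, Finset.mul_sum]
  exact Finset.sum_le_sum fun t _ => Et_res P ν k t

lemma dl_res (ν : List W → κ → ℝ) (k : κ) (t : ℕ) (l : κ) :
    dl (P.res k 1) (rn ν k) t l + dl (P.res k (-1)) (rn ν k) t l
      = if l = k then 0 else 2 * dl P ν t l := by
  unfold dl rn
  rw [← S_add]
  split_ifs with hl
  · simp [S_zero_fun]
  · rw [← S_mul_left]
    refine S_congr' t fun h _ => ?_
    have := P.p_res k h
    linear_combination ν h l * this

/-- The potential. -/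
noncomputable def Pt (ν : List W → κ → ℝ) (T : ℕ) : ℝ := ∑ t ∈ Finset.range T, ∑ k, dl P ν t k

lemma Pt_nonneg (ν : List W → κ → ℝ) (hν0 : ∀ h k, 0 ≤ ν h k) (T : ℕ) : 0 ≤ Pt P ν T :=
  Finset.sum_nonneg fun t _ => Finset.sum_nonneg fun k _ => dl_nonneg P ν hν0 t k

lemma Pt_le (ν : List W → κ → ℝ) (m : ℝ) (hν : ∀ h, ∑ k, ν h k ≤ m) (T : ℕ) :
    Pt P ν T ≤ T * m := by
  calc Pt P ν T ≤ ∑ _t ∈ Finset.range T, m := Finset.sum_le_sum fun t _ => sum_dl P ν m hν t
    _ = _ := by simp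

lemma Pt_res (ν : List W → κ → ℝ) (T : ℕ) (k : κ) :
    Pt (P.res k 1) (rn ν k) T + Pt (P.res k (-1)) (rn ν k) T
      = 2 * (Pt P ν T - ∑ t ∈ Finset.range T, dl P ν t k) := by
  unfold Pt
  rw [← Finset.sum_add_distrib, ← Finset.sum_sub_distrib, Finset.mul_sum]
  refine Finset.sum_congr rfl fun t _ => ?_
  rw [← Finset.sum_add_distrib]
  simp_rw [dl_res]
  rw [← Finset.add_sum_erase Finset.univ (fun l : κ => if l = k then (0 : ℝ) else 2 * dl P ν t l)
      (Finset.mem_univ k), if_pos rfl, zero_add,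
    ← Finset.add_sum_erase Finset.univ (fun l : κ => dl P ν t l) (Finset.mem_univ k),
    add_sub_cancel_left, Finset.mul_sum]
  refine Finset.sum_congr rfl fun l hl => ?_
  rw [if_neg (Finset.ne_of_mem_erase hl)]

lemma dl_dead (ν : List W → κ → ℝ) (t : ℕ) (l : κ) (hl : ∀ h, ν h l = 0) : dl P ν t l = 0 := by
  unfold dl
  simp_rw [hl, mul_zero]
  exact S_zero_fun t

lemma vb_nonneg (T : ℕ) (c θ m E : ℝ) (hc : 0 < c) (hθ : 0 ≤ θ) (hm : 0 ≤ m) (hE : 0 ≤ E) :
    0 ≤ vb T c θ m E := by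
  unfold vb; positivity

lemma vb_avg (T : ℕ) (c θ m E E1 E2 : ℝ) (hc : 0 < c) (h : E1 + E2 ≤ 2 * E) :
    (vb T c θ m E1 + vb T c θ m E2) / 2 ≤ vb T c θ m E := by
  unfold vb
  have h0 : 0 ≤ 24 * (T : ℝ) ^ 2 / c := by positivity
  have := mul_le_mul_of_nonneg_left h h0
  linarith

lemma sqrt_avg (a b : ℝ) (ha : 0 ≤ a) (hb : 0 ≤ b) :
    (Real.sqrt a + Real.sqrt b) / 2 ≤ Real.sqrt ((a + b) / 2) := by
  apply Real.le_sqrt_of_sq_le
  have h1 := Real.sq_sqrt ha
  have h2 := Real.sq_sqrt hb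
  nlinarith [sq_nonneg (Real.sqrt a - Real.sqrt b)]

/-- The covariance bound. -/
theorem cov_bound (m : ℝ) (hm : 0 ≤ m) (c : ℝ) (hc : 0 < c) (θ : ℝ) (hθ : 0 < θ) (T : ℕ)
    (g : List W → ℝ) (hg0 : ∀ a, 0 ≤ g a) (hg1 : ∀ a, g a ≤ 1)
    (h : (κ → ℤˣ) → ℝ) (I : ℝ) (hI : ∀ l, Real.sqrt (Inf h l) ≤ I) (hI0 : 0 ≤ I) :
    ∀ (n : ℕ) (L : Finset κ) (P : Pr κ ι W) (ν : List W → κ → ℝ), (∀ h k, 0 ≤ ν h k) →
      (∀ h, ∑ k, ν h k ≤ m) → Lᶜ.card = n → (∀ l ∈ L, ∀ h, ν h l = 0) →
      |Cov (P.out T g) h| ≤ Real.sqrt (vb T c θ m (Exc P ν T)) * Real.sqrt (Cov h h)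
        + Pt P ν T / (2 * θ) * I := by
  intro n
  induction n with
  | zero =>
    intro L P ν hν0 hν hn hL
    have hlight := light P ν hν0 m hν c hc θ hθ.le T (fun t _ k => by
      have hk : k ∈ L := by
        by_contra hk
        have : k ∈ Lᶜ := Finset.mem_compl.2 hk
        rw [Finset.card_eq_zero.1 hn] at this
        simp at this
      rw [dl_dead P ν t k (hL k hk)]
      exact hθ.le) g hg0 hg1
    have h1 := abs_Cov_le (P.out T g) h
    have h2 : Real.sqrt (Cov (P.out T g) (P.out T g)) * Real.sqrt (Cov h h)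
        ≤ Real.sqrt (vb T c θ m (Exc P ν T)) * Real.sqrt (Cov h h) :=
      mul_le_mul_of_nonneg_right (Real.sqrt_le_sqrt hlight) (Real.sqrt_nonneg _)
    have h3 : 0 ≤ Pt P ν T / (2 * θ) * I :=
      mul_nonneg (div_nonneg (Pt_nonneg P ν hν0 T) (by positivity)) hI0
    linarith
  | succ n ih =>
    intro L P ν hν0 hν hn hL
    by_cases hlt : ∀ t < T, ∀ k, dl P ν t k ≤ θ
    · have hlight := light P ν hν0 m hν c hc θ hθ.le T hlt g hg0 hg1
      have h1 := abs_Cov_le (P.out T g) h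
      have h2 : Real.sqrt (Cov (P.out T g) (P.out T g)) * Real.sqrt (Cov h h)
          ≤ Real.sqrt (vb T c θ m (Exc P ν T)) * Real.sqrt (Cov h h) :=
        mul_le_mul_of_nonneg_right (Real.sqrt_le_sqrt hlight) (Real.sqrt_nonneg _)
      have h3 : 0 ≤ Pt P ν T / (2 * θ) * I :=
        mul_nonneg (div_nonneg (Pt_nonneg P ν hν0 T) (by positivity)) hI0
      linarith
    · push Not at hlt
      obtain ⟨t, ht, k, hk⟩ := hlt
      have hkL : k ∉ L := by
        intro hkL
        rw [dl_dead P ν t k (hL k hkL)] at hk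
        linarith
      have hcard : (insert k L)ᶜ.card = n := by
        have h1 := Finset.card_compl_add_card L
        have h2 := Finset.card_compl_add_card (insert k L)
        rw [Finset.card_insert_of_notMem hkL] at h2
        omega
      have hdead : ∀ l ∈ insert k L, ∀ h, rn ν k h l = 0 := by
        intro l hl h
        unfold rn
        split_ifs with hlk
        · rfl
        · exact hL l (Finset.mem_of_mem_insert_of_ne hl hlk) h
      have i1 := ih (insert k L) (P.res k 1) (rn ν k) (rn_nonneg ν hν0 k) (rn_sum ν hν0 m hν k)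
        hcard hdead
      have i2 := ih (insert k L) (P.res k (-1)) (rn ν k) (rn_nonneg ν hν0 k) (rn_sum ν hν0 m hν k)
        hcard hdead
      rw [out_res] at i1 i2
      have hsplit := Cov_split (P.out T g) h k
      have hq : |Ex (fun x => sg x k * D (P.out T g) k x * h x)| ≤ 1 / 2 * I := by
        refine (abs_Ex_sg_mul_le k (D (P.out T g) k) h (fun x u => D_update _ k x u)).trans ?_
        refine mul_le_mul ?_ (hI k) (Real.sqrt_nonneg _) (by norm_num)
        rw [Real.sqrt_le_left (by norm_num)]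
        refine Ex_le_const fun x => ?_
        have := abs_D_le (P.out T g) (P.out_nonneg T g hg0) (P.out_le T g hg1) k x
        rw [← sq_abs]
        exact pow_le_pow_left₀ (abs_nonneg _) this 2
      have hPot := Pt_res P ν T k
      have hdk : θ ≤ ∑ t ∈ Finset.range T, dl P ν t k :=
        hk.le.trans (Finset.single_le_sum (f := fun t => dl P ν t k)
          (fun t _ => dl_nonneg P ν hν0 t k) (Finset.mem_range.2 ht))
      have hc3 : 0 < 2 * θ := by positivity
      set V1 := Real.sqrt (vb T c θ m (Exc (P.res k 1) (rn ν k) T)) with hV1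
      set V2 := Real.sqrt (vb T c θ m (Exc (P.res k (-1)) (rn ν k) T)) with hV2
      have hVV : (V1 + V2) / 2 ≤ Real.sqrt (vb T c θ m (Exc P ν T)) := by
        refine (sqrt_avg _ _ (vb_nonneg T c θ m _ hc hθ.le hm (Exc_nonneg _ _ T))
          (vb_nonneg T c θ m _ hc hθ.le hm (Exc_nonneg _ _ T))).trans ?_
        exact Real.sqrt_le_sqrt (vb_avg T c θ m _ _ _ hc (Exc_res P ν k T))
      have hVV2 : (V1 * Real.sqrt (Cov h h) + V2 * Real.sqrt (Cov h h)) / 2
          ≤ Real.sqrt (vb T c θ m (Exc P ν T)) * Real.sqrt (Cov h h) := by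
        have := mul_le_mul_of_nonneg_right hVV (Real.sqrt_nonneg (Cov h h))
        linarith
      have hfin : (Pt (P.res k 1) (rn ν k) T / (2 * θ) * I
          + Pt (P.res k (-1)) (rn ν k) T / (2 * θ) * I) / 2
          + 1 / 2 * I ≤ Pt P ν T / (2 * θ) * I := by
        have e : (Pt (P.res k 1) (rn ν k) T / (2 * θ) * I
            + Pt (P.res k (-1)) (rn ν k) T / (2 * θ) * I) / 2
            = (Pt P ν T - ∑ t ∈ Finset.range T, dl P ν t k) / (2 * θ) * I := by
          have : Pt (P.res k 1) (rn ν k) T / (2 * θ) * I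
              + Pt (P.res k (-1)) (rn ν k) T / (2 * θ) * I
              = (Pt (P.res k 1) (rn ν k) T + Pt (P.res k (-1)) (rn ν k) T) / (2 * θ) * I := by ring
          rw [this, hPot]; ring
        rw [e]
        have h5 : (Pt P ν T - ∑ t ∈ Finset.range T, dl P ν t k) / (2 * θ)
            ≤ Pt P ν T / (2 * θ) - 1 / 2 := by
          rw [div_le_iff₀ hc3, sub_mul, div_mul_cancel₀ _ hc3.ne']
          linarith
        have h6 := mul_le_mul_of_nonneg_right h5 hI0
        linarith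
      rw [hsplit]
      calc |(Cov (fr k 1 (P.out T g)) h + Cov (fr k (-1) (P.out T g)) h) / 2
            + Ex (fun x => sg x k * D (P.out T g) k x * h x)|
          ≤ |(Cov (fr k 1 (P.out T g)) h + Cov (fr k (-1) (P.out T g)) h) / 2|
            + |Ex (fun x => sg x k * D (P.out T g) k x * h x)| := abs_add_le _ _
        _ ≤ (|Cov (fr k 1 (P.out T g)) h| + |Cov (fr k (-1) (P.out T g)) h|) / 2
            + |Ex (fun x => sg x k * D (P.out T g) k x * h x)| := by
            rw [abs_div, abs_of_pos (by norm_num : (0 : ℝ) < 2)]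
            have := abs_add_le (Cov (fr k 1 (P.out T g)) h) (Cov (fr k (-1) (P.out T g)) h)
            linarith
        _ ≤ _ := by linarith

/-- The mass of the domination is positive. -/
lemma mass_pos (ν : List W → κ → ℝ) (hν0 : ∀ h k, 0 ≤ ν h k) (m : ℝ) (hν : ∀ h, ∑ k, ν h k ≤ m) :
    0 ≤ m := (Finset.sum_nonneg fun k _ => hν0 [] k).trans (hν [])

/-- The numbers for the choice `c = V / (104 T³)`. -/
lemma vb_choice (T : ℕ) (hT : 1 ≤ T) (V m E : ℝ) (hV : 0 < V) (hm : 0 < m)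
    (hE : E ≤ V ^ 2 / (2 ^ 18 * (T : ℝ) ^ 5)) :
    vb T (V / (104 * (T : ℝ) ^ 3)) (T * (V / (104 * (T : ℝ) ^ 3)) ^ 3 / m) m E ≤ V / 4 := by
  have hT0 : (0 : ℝ) < T := by exact_mod_cast hT
  set c : ℝ := V / (104 * (T : ℝ) ^ 3) with hc
  have hc0 : 0 < c := by positivity
  have hVc : V = 104 * (T : ℝ) ^ 3 * c := by rw [hc]; field_simp
  unfold vb
  have e3 : (T : ℝ) ^ 2 * (m * (T * c ^ 3 / m)) / c ^ 2 = (T : ℝ) ^ 3 * c := by
    field_simp
  have e2 : 24 * (T : ℝ) ^ 2 / c * E ≤ (T : ℝ) ^ 3 * c := by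
    have h1 : 24 * (T : ℝ) ^ 2 / c * E ≤ 24 * (T : ℝ) ^ 2 / c * (V ^ 2 / (2 ^ 18 * (T : ℝ) ^ 5)) :=
      mul_le_mul_of_nonneg_left hE (by positivity)
    refine h1.trans ?_
    rw [hVc]
    have h2 : 24 * (T : ℝ) ^ 2 / c * ((104 * (T : ℝ) ^ 3 * c) ^ 2 / (2 ^ 18 * (T : ℝ) ^ 5))
        = (24 * 104 ^ 2 / 2 ^ 18) * ((T : ℝ) ^ 3 * c) := by
      field_simp
    rw [h2]
    refine mul_le_of_le_one_left (by positivity) (by norm_num)
  rw [e3]
  have e4 : V / 4 = 26 * ((T : ℝ) ^ 3 * c) := by rw [hVc]; ring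
  rw [e4]
  linarith

/-- Influential coordinates of dominated processes. -/
theorem main (T : ℕ) (hT : 1 ≤ T) (g : List W → ℝ) (hg0 : ∀ a, 0 ≤ g a)
    (hg1 : ∀ a, g a ≤ 1) (hV : 0 < Cov (P.out T g) (P.out T g))
    (m : ℝ) (ν : List W → κ → ℝ) (hν0 : ∀ h k, 0 ≤ ν h k) (hν : ∀ h, ∑ k, ν h k ≤ m)
    (hE : Exc P ν T ≤ Cov (P.out T g) (P.out T g) ^ 2 / (2 ^ 18 * (T : ℝ) ^ 5)) :
    ∃ l, (Cov (P.out T g) (P.out T g) ^ 4 / (2 ^ 21 * (T : ℝ) ^ 9 * m ^ 2)) ^ 2
      ≤ Inf (P.out T g) l := by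
  set f := P.out T g with hf
  set V := Cov f f with hVdef
  have hT0 : (0 : ℝ) < T := by exact_mod_cast hT
  have hm0 : 0 ≤ m := mass_pos ν hν0 m hν
  -- the mass is positive
  have hm : 0 < m := by
    rcases hm0.lt_or_eq with h | h
    · exact h
    · exfalso
      have hz : ∀ h k, ν h k = 0 := by
        intro h' k
        have h1 : ν h' k ≤ ∑ k, ν h' k :=
          Finset.single_le_sum (f := fun k => ν h' k) (fun k _ => hν0 h' k) (Finset.mem_univ k)
        have h2 := hν h'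
        have h3 := hν0 h' k
        linarith
      have hc0 : 0 < V / (104 * (T : ℝ) ^ 3) := by positivity
      have h1 := light P ν hν0 1 (fun h => by simp [hz]) (V / (104 * (T : ℝ) ^ 3)) hc0
        (T * (V / (104 * (T : ℝ) ^ 3)) ^ 3 / 1) (by positivity) T
        (fun t _ k => by rw [dl_dead P ν t k (fun h => hz h k)]; positivity) g hg0 hg1
      have h2 := vb_choice T hT V 1 (Exc P ν T) hV one_pos hE
      rw [← hf, ← hVdef] at h1
      linarith
  set c : ℝ := V / (104 * (T : ℝ) ^ 3) with hc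
  have hc0 : 0 < c := by positivity
  set θ : ℝ := T * c ^ 3 / m with hθdef
  have hθ : 0 < θ := by positivity
  have hvb : vb T c θ m (Exc P ν T) ≤ V / 4 := vb_choice T hT V m (Exc P ν T) hV hm hE
  have hsq : Real.sqrt (vb T c θ m (Exc P ν T)) * Real.sqrt V ≤ V / 2 := by
    have e : V / 4 = (Real.sqrt V / 2) ^ 2 := by
      rw [div_pow, Real.sq_sqrt hV.le]; norm_num
    have h1 : Real.sqrt (vb T c θ m (Exc P ν T)) ≤ Real.sqrt V / 2 := by
      refine (Real.sqrt_le_sqrt hvb).trans ?_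
      rw [e, Real.sqrt_sq (by positivity)]
    have h2 := mul_le_mul_of_nonneg_right h1 (Real.sqrt_nonneg V)
    have h3 : Real.sqrt V / 2 * Real.sqrt V = V / 2 := by
      rw [div_mul_eq_mul_div, Real.mul_self_sqrt hV.le]
    linarith
  have key : ∀ I : ℝ, 0 ≤ I → (∀ l, Real.sqrt (Inf f l) ≤ I) →
      V ^ 4 / (2 ^ 21 * (T : ℝ) ^ 9 * m ^ 2) ≤ I := by
    intro I hI0 hI
    have h1 := cov_bound m hm0 c hc0 θ hθ T g hg0 hg1 f I hI hI0 (∅ᶜ : Finset κ).card ∅ P ν hν0 hν
      rfl (by simp)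
    rw [← hf, ← hVdef, abs_of_pos hV] at h1
    have h2 := Pt_le P ν m hν T
    have h3 : Pt P ν T / (2 * θ) * I ≤ (T * m) / (2 * θ) * I :=
      mul_le_mul_of_nonneg_right (div_le_div_of_nonneg_right h2 (by positivity)) hI0
    have h4 : V / 2 ≤ (T * m) / (2 * θ) * I := by linarith
    have e1 : (T * m) / (2 * θ) * I = m ^ 2 / (2 * c ^ 3) * I := by
      rw [hθdef]; field_simp
    rw [e1] at h4
    have h5 : V * c ^ 3 / m ^ 2 ≤ I := by
      rw [div_le_iff₀ (by positivity)]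
      have h6 := mul_le_mul_of_nonneg_right h4 (by positivity : 0 ≤ 2 * c ^ 3)
      have e2 : m ^ 2 / (2 * c ^ 3) * I * (2 * c ^ 3) = I * m ^ 2 := by
        field_simp
      linarith
    refine le_trans ?_ h5
    have e3 : V * c ^ 3 / m ^ 2 = V ^ 4 / (104 ^ 3 * (T : ℝ) ^ 9 * m ^ 2) := by
      rw [hc]; field_simp
    rw [e3]
    apply div_le_div_of_nonneg_left (by positivity) (by positivity)
    have : (104 : ℝ) ^ 3 ≤ 2 ^ 21 := by norm_num
    gcongr
  rcases isEmpty_or_nonempty κ with hκ | hκ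
  · exfalso
    have := key 0 le_rfl (fun l => (IsEmpty.false l).elim)
    have h2 : 0 < V ^ 4 / (2 ^ 21 * (T : ℝ) ^ 9 * m ^ 2) := by positivity
    linarith
  · obtain ⟨l, _, hl⟩ := Finset.exists_max_image (Finset.univ : Finset κ) (fun l => Inf f l)
      Finset.univ_nonempty
    refine ⟨l, ?_⟩
    have h1 := key (Real.sqrt (Inf f l)) (Real.sqrt_nonneg _)
      (fun l' => Real.sqrt_le_sqrt (hl l' (Finset.mem_univ _)))
    calc _ ≤ Real.sqrt (Inf f l) ^ 2 := pow_le_pow_left₀ (by positivity) h1 2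
      _ = _ := Real.sq_sqrt (Inf_nonneg f l)

/-- The bit fixing induction. -/
lemma fix_aux (m : ℝ) (hm : 0 ≤ m) (c : ℝ) (hc : 0 < c) (θ : ℝ) (hθ : 0 < θ) (T : ℕ)
    (g : List W → ℝ) (hg0 : ∀ a, 0 ≤ g a) (hg1 : ∀ a, g a ≤ 1) :
    ∀ (n : ℕ) (P : Pr κ ι W) (ν : List W → κ → ℝ), (∀ h k, 0 ≤ ν h k) → (∀ h, ∑ k, ν h k ≤ m) →
      ∀ (u : ℝ), ∃ (S : Finset κ) (a : κ → ℤˣ), S.card ≤ n ∧
      Ex (fun x => (P.out T g x - u) ^ 2) - vb T c θ m (Exc P ν T)
          - Pt P ν T / ((n + 1) * θ)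
        ≤ (Ex (fun x => P.out T g (S.piecewise a x)) - u) ^ 2 := by
  have hCov1 : ∀ P : Pr κ ι W, Cov (P.out T g) (P.out T g) ≤ 1 := by
    intro P
    have := Cov_self_le (P.out T g) 1 (fun x => by
      rw [abs_of_nonneg (P.out_nonneg T g hg0 x)]; exact P.out_le T g hg1 x)
    linarith
  have hv0 : ∀ (P : Pr κ ι W) (ν : List W → κ → ℝ), 0 ≤ vb T c θ m (Exc P ν T) := fun P ν =>
    vb_nonneg T c θ m _ hc hθ.le hm (Exc_nonneg P ν T)
  intro n
  induction n with
  | zero =>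
    intro P ν hν0 hν u
    refine ⟨∅, 1, by simp, ?_⟩
    simp only [Finset.piecewise_empty, Nat.cast_zero, zero_add, one_mul]
    rw [Ex_sq_sub, show Ex (fun x => P.out T g x) = Ex (P.out T g) from rfl]
    have hP := Pt_nonneg P ν hν0 T
    have hvP := hv0 P ν
    by_cases hlt : ∀ t < T, ∀ k, dl P ν t k ≤ θ
    · have hlight := light P ν hν0 m hν c hc θ hθ.le T hlt g hg0 hg1
      have : 0 ≤ Pt P ν T / θ := by positivity
      linarith
    · push Not at hlt
      obtain ⟨t, ht, k, hk⟩ := hlt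
      have h1 : θ ≤ Pt P ν T := by
        refine hk.le.trans ?_
        unfold Pt
        calc dl P ν t k ≤ ∑ k, dl P ν t k :=
              Finset.single_le_sum (f := fun k => dl P ν t k) (fun k _ => dl_nonneg P ν hν0 t k)
                (Finset.mem_univ k)
          _ ≤ _ := Finset.single_le_sum (f := fun t => ∑ k, dl P ν t k)
                (fun t _ => Finset.sum_nonneg fun k _ => dl_nonneg P ν hν0 t k)
                (Finset.mem_range.2 ht)
      have h2 : 1 ≤ Pt P ν T / θ := by rw [le_div_iff₀ hθ]; linarith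
      have h3 := hCov1 P
      linarith
  | succ n ih =>
    intro P ν hν0 hν u
    have hP := Pt_nonneg P ν hν0 T
    have hvP := hv0 P ν
    have hstop : Cov (P.out T g) (P.out T g)
        ≤ vb T c θ m (Exc P ν T) + Pt P ν T / (((n + 1 : ℕ) : ℝ) + 1) / θ →
        ∃ (S : Finset κ) (a : κ → ℤˣ), S.card ≤ n + 1 ∧
          Ex (fun x => (P.out T g x - u) ^ 2) - vb T c θ m (Exc P ν T)
            - Pt P ν T / ((((n + 1 : ℕ) : ℝ) + 1) * θ)
          ≤ (Ex (fun x => P.out T g (S.piecewise a x)) - u) ^ 2 := by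
      intro h
      refine ⟨∅, 1, by simp, ?_⟩
      simp only [Finset.piecewise_empty]
      rw [Ex_sq_sub, show Ex (fun x => P.out T g x) = Ex (P.out T g) from rfl, ← div_div]
      linarith
    by_cases hlt : ∀ t < T, ∀ k, dl P ν t k ≤ θ
    · have hlight := light P ν hν0 m hν c hc θ hθ.le T hlt g hg0 hg1
      refine hstop ?_
      have : 0 ≤ Pt P ν T / (((n + 1 : ℕ) : ℝ) + 1) / θ := by positivity
      linarith
    · rcases le_or_gt (Pt P ν T) ((((n + 1 : ℕ) : ℝ) + 1) * θ) with hle | hgt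
      · push Not at hlt
        obtain ⟨t, ht, l, hk⟩ := hlt
        obtain ⟨S1, a1, hc1, h1⟩ := ih (P.res l 1) (rn ν l) (rn_nonneg ν hν0 l)
          (rn_sum ν hν0 m hν l) u
        obtain ⟨S2, a2, hc2, h2⟩ := ih (P.res l (-1)) (rn ν l) (rn_nonneg ν hν0 l)
          (rn_sum ν hν0 m hν l) u
        rw [out_res] at h1 h2
        have hsplit : Ex (fun x => (P.out T g x - u) ^ 2)
            = (Ex (fun x => (fr l 1 (P.out T g) x - u) ^ 2)
              + Ex (fun x => (fr l (-1) (P.out T g) x - u) ^ 2)) / 2 :=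
          Ex_split l (fun x => (P.out T g x - u) ^ 2)
        have hPot := Pt_res P ν T l
        have hdk : θ ≤ ∑ t ∈ Finset.range T, dl P ν t l :=
          hk.le.trans (Finset.single_le_sum (f := fun t => dl P ν t l)
            (fun t _ => dl_nonneg P ν hν0 t l) (Finset.mem_range.2 ht))
        have hn1 : (0 : ℝ) < ((n : ℝ) + 1) * θ := by positivity
        have hn2 : (0 : ℝ) < (((n + 1 : ℕ) : ℝ) + 1) * θ := by positivity
        have hnum : (Pt P ν T - ∑ t ∈ Finset.range T, dl P ν t l) / (((n : ℝ) + 1) * θ)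
            ≤ Pt P ν T / ((((n + 1 : ℕ) : ℝ) + 1) * θ) := by
          rw [div_le_div_iff₀ hn1 hn2]
          push_cast at hle ⊢
          have h3 : (Pt P ν T - ∑ t ∈ Finset.range T, dl P ν t l) * (((n : ℝ) + 1 + 1) * θ)
              ≤ (Pt P ν T - θ) * (((n : ℝ) + 1 + 1) * θ) := by
            refine mul_le_mul_of_nonneg_right (by linarith) (by positivity)
          nlinarith
        have key : ∀ b : ℤˣ, ∀ (S : Finset κ) (a : κ → ℤˣ), S.card ≤ n →
            ∃ (S' : Finset κ) (a' : κ → ℤˣ), S'.card ≤ n + 1 ∧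
              Ex (fun x => fr l b (P.out T g) (S.piecewise a x))
                = Ex (fun x => P.out T g (S'.piecewise a' x)) := by
          intro b S a hc
          refine ⟨insert l S, Function.update a l b, (Finset.card_insert_le _ _).trans (by omega), ?_⟩
          refine Ex_congr fun x => ?_
          unfold fr
          congr 1
          funext i
          by_cases hi : i = l
          · subst hi
            rw [Function.update_self, Finset.piecewise_eq_of_mem _ _ _ (Finset.mem_insert_self _ _),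
              Function.update_self]
          · rw [Function.update_of_ne hi]
            by_cases hiS : i ∈ S
            · rw [Finset.piecewise_eq_of_mem _ _ _ hiS,
                Finset.piecewise_eq_of_mem _ _ _ (Finset.mem_insert_of_mem hiS),
                Function.update_of_ne hi]
            · rw [Finset.piecewise_eq_of_notMem _ _ _ hiS, Finset.piecewise_eq_of_notMem]
              simp [hi, hiS]
        obtain ⟨S1', a1', hc1', e1⟩ := key 1 S1 a1 hc1
        obtain ⟨S2', a2', hc2', e2⟩ := key (-1) S2 a2 hc2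
        rw [e1] at h1
        rw [e2] at h2
        have havg : (Pt (P.res l 1) (rn ν l) T / (((n : ℝ) + 1) * θ)
            + Pt (P.res l (-1)) (rn ν l) T / (((n : ℝ) + 1) * θ)) / 2
            = (Pt P ν T - ∑ t ∈ Finset.range T, dl P ν t l) / (((n : ℝ) + 1) * θ) := by
          rw [← add_div, hPot]; ring
        have hvavg := vb_avg T c θ m (Exc P ν T) _ _ hc (Exc_res P ν l T)
        by_cases hcmp : (Ex (fun x => P.out T g (S2'.piecewise a2' x)) - u) ^ 2 ≤
            (Ex (fun x => P.out T g (S1'.piecewise a1' x)) - u) ^ 2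
        · refine ⟨S1', a1', hc1', ?_⟩
          linarith
        · refine ⟨S2', a2', hc2', ?_⟩
          push Not at hcmp
          linarith
      · refine hstop ?_
        have h1 : 1 ≤ Pt P ν T / (((n + 1 : ℕ) : ℝ) + 1) / θ := by
          rw [div_div, le_div_iff₀ (by positivity)]
          linarith
        have h3 := hCov1 P
        linarith

/-- Bit fixing for dominated processes. -/
theorem fix (T : ℕ) (hT : 1 ≤ T) (g : List W → ℝ) (hg0 : ∀ a, 0 ≤ g a)
    (hg1 : ∀ a, g a ≤ 1) (hV : 0 < Cov (P.out T g) (P.out T g))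
    (m : ℝ) (ν : List W → κ → ℝ) (hν0 : ∀ h k, 0 ≤ ν h k) (hν : ∀ h, ∑ k, ν h k ≤ m)
    (hE : Exc P ν T ≤ Cov (P.out T g) (P.out T g) ^ 2 / (2 ^ 18 * (T : ℝ) ^ 5)) :
    ∃ (S : Finset κ) (a : κ → ℤˣ),
      (S.card : ℝ) ≤ 2 ^ 23 * (T : ℝ) ^ 9 * m ^ 2 / Cov (P.out T g) (P.out T g) ^ 4 ∧
      Cov (P.out T g) (P.out T g) / 2
        ≤ (Ex (fun x => P.out T g (S.piecewise a x)) - Ex (P.out T g)) ^ 2 := by
  set f := P.out T g with hf
  set V := Cov f f with hVdef
  have hT0 : (0 : ℝ) < T := by exact_mod_cast hT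
  have hm0 : 0 ≤ m := mass_pos ν hν0 m hν
  have hm : 0 < m := by
    rcases hm0.lt_or_eq with h | h
    · exact h
    · exfalso
      have hz : ∀ h k, ν h k = 0 := by
        intro h' k
        have h1 : ν h' k ≤ ∑ k, ν h' k :=
          Finset.single_le_sum (f := fun k => ν h' k) (fun k _ => hν0 h' k) (Finset.mem_univ k)
        have h2 := hν h'
        have h3 := hν0 h' k
        linarith
      have hc0 : 0 < V / (104 * (T : ℝ) ^ 3) := by positivity
      have h1 := light P ν hν0 1 (fun h => by simp [hz]) (V / (104 * (T : ℝ) ^ 3)) hc0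
        (T * (V / (104 * (T : ℝ) ^ 3)) ^ 3 / 1) (by positivity) T
        (fun t _ k => by rw [dl_dead P ν t k (fun h => hz h k)]; positivity) g hg0 hg1
      have h2 := vb_choice T hT V 1 (Exc P ν T) hV one_pos hE
      rw [← hf, ← hVdef] at h1
      linarith
  set c : ℝ := V / (104 * (T : ℝ) ^ 3) with hc
  have hc0 : 0 < c := by positivity
  set θ : ℝ := T * c ^ 3 / m with hθdef
  have hθ : 0 < θ := by positivity
  have hvb : vb T c θ m (Exc P ν T) ≤ V / 4 := vb_choice T hT V m (Exc P ν T) hV hm hE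
  set N : ℕ := ⌊4 * T * m / (θ * V)⌋₊ with hN
  obtain ⟨S, a, hS, h⟩ := fix_aux m hm0 c hc0 θ hθ T g hg0 hg1 N P ν hν0 hν (Ex f)
  refine ⟨S, a, ?_, ?_⟩
  · have h1 : (N : ℝ) ≤ 4 * T * m / (θ * V) := Nat.floor_le (by positivity)
    have h2 : 4 * T * m / (θ * V) = 4 * 104 ^ 3 * (T : ℝ) ^ 9 * m ^ 2 / V ^ 4 := by
      rw [hθdef, hc]
      field_simp
    have h3 : 4 * 104 ^ 3 * (T : ℝ) ^ 9 * m ^ 2 / V ^ 4 ≤ 2 ^ 23 * (T : ℝ) ^ 9 * m ^ 2 / V ^ 4 := by
      have : (4 : ℝ) * 104 ^ 3 ≤ 2 ^ 23 := by norm_num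
      gcongr
    calc (S.card : ℝ) ≤ N := by exact_mod_cast hS
      _ ≤ _ := h1
      _ = _ := h2
      _ ≤ _ := h3
  · rw [← hf, Ex_sq_sub, sub_self, zero_pow (by norm_num), add_zero, ← hVdef] at h
    have h2 := Pt_le P ν m hν T
    have h3 : 4 * T * m / (θ * V) < (N : ℝ) + 1 := Nat.lt_floor_add_one _
    have h4 : Pt P ν T / (((N : ℝ) + 1) * θ) ≤ V / 4 := by
      rw [div_le_iff₀ (by positivity)]
      rw [div_lt_iff₀ (by positivity)] at h3
      nlinarith
    linarith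

end Pool.Agent.H703R2.AB
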